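import Mathlib

/-!
# The Chow rings of open unions of strata of the stack of prestable curves of genus zero

This file defines, by generators and relations, the Chow ring (with rational coefficients) of the
stack `M = 𝔐_{0,n}` of prestable curves of genus `0` with `n` markings, and of its open unions of
strata `U`, following Bae and Schmitt (Chow rings of stacks of prestable curves, II): `CH*(M)` is
the quotient of the strata algebra by the tautological relations of genus zero, and `CH*(U)` is
the quotient of `CH*(M)` by the classes of the decorated strata which lie outside `U`.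

* `PTree n`: prestable graphs of genus `0` with `n` legs.
* `Contraction Δ Γ`: contractions of edges `Δ → Γ`, that is `Γ`-structures on `Δ`.
* `Dec Γ`: polynomials in the classes `ψ_a` (`a` a flag, i.e. a half-edge or a leg) and `κ_v`
  (`v` a vertex); here `κ_v` stands for the class `κ_2` of the factor `𝔐_{0,n(v)}`.
* `stratum Γ α`: the decorated stratum class `[Γ, α]`, given by its restrictions to all the open
  strata `𝔐_Δ`:  `[Γ, α]|_Δ = ∑_{f : Δ → Γ} f^* α ∏_{e ∈ E(Γ)} (- ψ_h - ψ_h')`.
  This is the usual intersection formula, and it determines the product of decorated strata.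
* `StrataAlgebra n`: the algebra generated by all the decorated strata classes.
* `relations n`: the ideal of tautological relations.  It is generated by the push-forwards, under
  the gluing maps of all strata `Γ`, of the two basic relations on a factor `𝔐_{0,n(v)}`
    - `ψ_a + ψ_b = D(a | b)` for two flags `a ≠ b` at `v`, where `D(a | b)` is the class of the
      locus of curves having a node which separates `a` from `b` (over `ℚ` this relation contains
      `ψ_a = D(a | b, c)` and the WDVV relations),
    - `κ_2 = - ψ_r ^ 2 + ∑_{i ≠ r} ψ_i ^ 2 + ∑_D [D, ψ_{h'} - ψ_h]`, for a flag `r` at `v` (so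
      `n(v) ≥ 1`), where `D` runs through the boundary divisors of `𝔐_{0,n(v)}`, `h` is the
      half-edge at the side of `D` which contains `r` and `h'` is the half-edge at the far side.
* `ChowRing n U`: the Chow ring of the open union of strata `U`.
-/

set_option autoImplicit false

open MvPolynomial

namespace Pool.Agent.PrestableChow

/-- `Joined ends P v w`: in the multigraph with vertex set `V`, edge set `E` and
half-edges `E × Bool`, attached to the vertices by `ends`, the vertices `v` and `w` are joined by a
path all of whose edges belong to `P`. -/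
def Joined {V E : Type} (ends : E × Bool → V) (P : Set E) (v w : V) : Prop :=
  Relation.EqvGen (fun a b => ∃ e ∈ P, ends (e, false) = a ∧ ends (e, true) = b) v w

/-- The half-edge opposite to a half-edge. -/
def flip {E : Type} (h : E × Bool) : E × Bool := (h.1, !h.2)

/-- Prestable graphs of genus `0` with `n` legs: connected graphs with one more vertex than edges
(trees), with `n` numbered legs.  The vertices are `0, …, nE`, the edges are `0, …, nE - 1`, and
the half-edges of an edge `e` are `(e, false)` and `(e, true)`. -/
structure PTree (n : ℕ) where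
  /-- the number of edges -/
  nE : ℕ
  /-- the vertex to which a half-edge is attached -/
  ends : Fin nE × Bool → Fin (nE + 1)
  /-- the vertex to which a leg is attached -/
  leg : Fin n → Fin (nE + 1)
  /-- the graph is connected -/
  conn : ∀ v w, Joined ends Set.univ v w

variable {n : ℕ}

/-- The edges. -/
abbrev PTree.Edge (Γ : PTree n) : Type := Fin Γ.nE

/-- The half-edges. -/
abbrev PTree.Half (Γ : PTree n) : Type := Γ.Edge × Bool

/-- The vertices. -/
abbrev PTree.Vert (Γ : PTree n) : Type := Fin (Γ.nE + 1)

/-- The flags: half-edges and legs. -/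
abbrev PTree.Flag (Γ : PTree n) : Type := Γ.Half ⊕ Fin n

/-- The vertex of a flag. -/
def PTree.base (Γ : PTree n) : Γ.Flag → Γ.Vert := Sum.elim Γ.ends Γ.leg

/-- A contraction `Δ → Γ` of edges (a `Γ`-structure on `Δ`): the half-edges of `Γ` are identified
with half-edges of `Δ`, the edges of `Δ` not coming from `Γ` are contracted. -/
@[ext]
structure Contraction (Δ Γ : PTree n) where
  /-- the map on vertices -/
  vert : Δ.Vert → Γ.Vert
  /-- the inclusion of half-edges -/
  half : Γ.Half → Δ.Half
  half_injective : Function.Injective half
  half_flip : ∀ h, half (flip h) = flip (half h)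
  vert_ends : ∀ h, vert (Δ.ends (half h)) = Γ.ends h
  vert_leg : ∀ i, vert (Δ.leg i) = Γ.leg i
  /-- two vertices have the same image iff they are joined by a path of contracted edges -/
  vert_eq_iff : ∀ v w, vert v = vert w ↔ Joined Δ.ends {e | ∀ h, (half h).1 ≠ e} v w

/-- The edge of `Δ` corresponding to an edge of `Γ`. -/
def Contraction.edge {Δ Γ : PTree n} (f : Contraction Δ Γ) (e : Γ.Edge) : Δ.Edge :=
  (f.half (e, false)).1

/-- The flag of `Δ` corresponding to a flag of `Γ`. -/
def Contraction.flag {Δ Γ : PTree n} (f : Contraction Δ Γ) : Γ.Flag → Δ.Flag := Sum.map f.half id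

instance (Δ Γ : PTree n) : Finite (Contraction Δ Γ) :=
  Finite.of_injective
    (fun f => ((f.vert, f.half) : (Δ.Vert → Γ.Vert) × (Γ.Half → Δ.Half)))
    (fun f g h => by
      ext1
      · exact congrArg Prod.fst h
      · exact congrArg Prod.snd h)

noncomputable instance (Δ Γ : PTree n) : Fintype (Contraction Δ Γ) := Fintype.ofFinite _

/-- The decorations of `Γ`: polynomials in the variables `ψ_a` (`a` a flag of `Γ`) and
`κ_v` (`v` a vertex of `Γ`). -/
abbrev Dec (Γ : PTree n) : Type := MvPolynomial (Γ.Flag ⊕ Γ.Vert) ℚ

/-- The variable `ψ_a`. -/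
noncomputable def psi {Γ : PTree n} (a : Γ.Flag) : Dec Γ := X (Sum.inl a)

/-- The variable `κ_v`, which stands for the class `κ_2` of the factor `𝔐_{0,n(v)}`. -/
noncomputable def kappa {Γ : PTree n} (v : Γ.Vert) : Dec Γ := X (Sum.inr v)

/-- The first Chern class `- ψ_h - ψ_h'` of the normal direction of the edge `e = {h, h'}`. -/
noncomputable def normal {Γ : PTree n} (e : Γ.Edge) : Dec Γ :=
  -(psi (Sum.inl (e, false)) + psi (Sum.inl (e, true)))

/-- The pull-back of decorations under a contraction `f : Δ → Γ`: a class `ψ_a` is mapped to the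
`ψ`-class of the corresponding flag, and `κ_v` to the sum of the `κ_w`, over the vertices `w`
contracted to `v`. -/
noncomputable def Contraction.pull {Δ Γ : PTree n} (f : Contraction Δ Γ) : Dec Γ →ₐ[ℚ] Dec Δ :=
  aeval (Sum.elim (fun a => psi (f.flag a)) (fun v => ∑ w with f.vert w = v, kappa w))

/-- The push-forward under the gluing map of the stratum `Γ` of a class `β` of
`∏_v 𝔐_{0,n(v)}`.  A class is given by its restrictions to all open strata; those of
`∏_v 𝔐_{0,n(v)}` correspond to the contractions `f : Δ → Γ`. -/
noncomputable def push (Γ : PTree n) (β : ∀ Δ : PTree n, Contraction Δ Γ → Dec Δ) :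
    ∀ Δ : PTree n, Dec Δ :=
  fun Δ => ∑ f : Contraction Δ Γ, β Δ f * ∏ e : Γ.Edge, normal (f.edge e)

/-- The decorated stratum class `[Γ, α]`. -/
noncomputable def stratum (Γ : PTree n) (α : Dec Γ) : ∀ Δ : PTree n, Dec Δ :=
  push Γ (fun _ f => f.pull α)

/-- The strata algebra of `𝔐_{0,n}`, generated by all the decorated strata classes. -/
noncomputable def StrataAlgebra (n : ℕ) : Subalgebra ℚ (∀ Δ : PTree n, Dec Δ) :=
  Algebra.adjoin ℚ {x | ∃ (Γ : PTree n) (α : Dec Γ), x = stratum Γ α}

/-- The strata algebra, as a ring. -/
def StrataRing (n : ℕ) : Type := StrataAlgebra n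

noncomputable instance (n : ℕ) : CommRing (StrataRing n) := (StrataAlgebra n).toCommRing

noncomputable instance (n : ℕ) : Algebra ℚ (StrataRing n) := (StrataAlgebra n).algebra

/-- The family of restrictions of an element of the strata algebra to the open strata. -/
def StrataRing.family (x : StrataRing n) : ∀ Δ : PTree n, Dec Δ := x.1

/-- The edge `e` separates the vertices `v` and `w`. -/
def Separates (Γ : PTree n) (e : Γ.Edge) (v w : Γ.Vert) : Prop :=
  ¬ Joined Γ.ends {e' | e' ≠ e} v w

open Classical in
/-- The restriction to the stratum `Γ` of the boundary class `D(a | b)`, for two flags `a`, `b`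
at the vertices `v`, `w`: the sum of the normal classes of the edges which separate `v` from `w`. -/
noncomputable def sepClass (Γ : PTree n) (v w : Γ.Vert) : Dec Γ :=
  ∑ e with Separates Γ e v w, normal e

/-- The basic relation `ψ_a + ψ_b - D(a | b)`, for two flags `a`, `b` at one vertex of `Γ`. -/
noncomputable def psiRelation {Γ : PTree n} (a b : Γ.Flag) (Δ : PTree n) (f : Contraction Δ Γ) :
    Dec Δ :=
  psi (f.flag a) + psi (f.flag b) - sepClass Δ (Δ.base (f.flag a)) (Δ.base (f.flag b))

/-- The flag `a` of the tree points towards the flag `r`: it is `r`, or it is a half-edge whose edge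
separates the vertex of `a` from the vertex of `r`. -/
def Towards (Γ : PTree n) (r a : Γ.Flag) : Prop :=
  a = r ∨ ∃ h : Γ.Half, a = Sum.inl h ∧ Separates Γ h.1 (Γ.ends h) (Γ.base r)

open Classical in
/-- The sign `-1` if `a` points towards `r`, and `+1` otherwise. -/
noncomputable def sgn (Γ : PTree n) (r a : Γ.Flag) : Dec Γ := if Towards Γ r a then -1 else 1

/-- The contribution of the vertex `w` to the class `κ_2` of a curve with a marking `r`: the sum of
`± ψ_a ^ 2` over the flags `a` at `w`, with the sign `-` if and only if `a` points towards `r`.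

Explanation: summed over all vertices this is the relation
`κ_2 = - ψ_r ^ 2 + ∑_{i ≠ r} ψ_i ^ 2 + ∑_D [D, ψ_{h'} - ψ_h]`
on `𝔐_{0,m}`, `m ≥ 1`, where `i` runs through the markings and `D` through the boundary divisors,
`h` is the half-edge at the side of `D` which contains `r`, and `h'` is the other one; note that
`ψ_h ^ 2 - ψ_{h'} ^ 2 = (- ψ_h - ψ_{h'}) (ψ_{h'} - ψ_h)`.  This relation follows from
`κ_2 = π_* (K ^ 3)`, where `π` is the universal curve and `K = c_1(ω_π(∑ p_i))`:  one has
`K = - p_r - ψ_r + ∑_{i ≠ r} p_i + ∑_D [component far from r over D]`, since the difference of the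
two sides has degree `0` on all components of all fibres and restricts to `0` on the section `p_r`.
So on a component `C_w` one has `K|_{C_w} = c_w - [p_t] + ∑_{a ≠ t} [p_a]`, where `a` runs through
the flags at `w`, `t` is the flag at `w` which points towards `r`, and `c_w` is `- ψ_r` plus the
normal classes of the edges between `w` and `r`.  As `[p_a] [p_b] = 0` for `a ≠ b` and
`π_* [p_a] ^ j = (- ψ_a) ^ (j-1)` for `j ≥ 1`, the push-forward of `(K|_{C_w}) ^ 3` is
`3 c_w ^ 2 ∑ sgn a - 3 c_w ∑ ψ_a + ∑ sgn a ψ_a ^ 2`, the sums over the flags `a` at `w`; and, summed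
over all `w`, the first two terms cancel, because the relation `ψ_a + ψ_b = D(a | b)` gives
`ψ_t = - c_w` and `ψ_a = c_w` for `a ≠ t`. -/
noncomputable def kappaAt (Γ : PTree n) (r : Γ.Flag) (w : Γ.Vert) : Dec Γ :=
  ∑ a with Γ.base a = w, sgn Γ r a * psi a ^ 2

/-- The basic relation which expresses the class `κ_2` of the factor `𝔐_{0,n(v)}` by `ψ`-classes
and boundary classes, where `v` is the vertex of the flag `r` of `Γ`. -/
noncomputable def kappaRelation {Γ : PTree n} (r : Γ.Flag) (Δ : PTree n) (f : Contraction Δ Γ) :
    Dec Δ :=
  ∑ w with f.vert w = Γ.base r, (kappa w - kappaAt Δ (f.flag r) w)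

/-- `x` is the push-forward of a relation `(ψ_a + ψ_b - D(a | b)) α` on a stratum `Γ`, where `a`
and `b` are different flags at the same vertex of `Γ`. -/
def IsPsiRelation (x : StrataRing n) : Prop :=
  ∃ (Γ : PTree n) (a b : Γ.Flag) (α : Dec Γ), a ≠ b ∧ Γ.base a = Γ.base b ∧
    x.family = push Γ (fun Δ f => psiRelation a b Δ f * f.pull α)

/-- `x` is the push-forward of a relation `(κ_v - (its expression)) α` on a stratum `Γ`, where `v`
is the vertex of the flag `r` of `Γ`. -/
def IsKappaRelation (x : StrataRing n) : Prop :=
  ∃ (Γ : PTree n) (r : Γ.Flag) (α : Dec Γ),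
    x.family = push Γ (fun Δ f => kappaRelation r Δ f * f.pull α)

/-- The ideal of the tautological relations of genus `0`. -/
noncomputable def relations (n : ℕ) : Ideal (StrataRing n) :=
  Ideal.span {x | IsPsiRelation x ∨ IsKappaRelation x}

/-- The ideal generated by the decorated strata classes which are supported on the complement of
the union of strata `U`. -/
noncomputable def outside (n : ℕ) (U : Set (PTree n)) : Ideal (StrataRing n) :=
  Ideal.span {x | ∃ (Γ : PTree n) (α : Dec Γ), Γ ∉ U ∧ x.family = stratum Γ α}

/-- The Chow ring of the open union of strata `U` of `𝔐_{0,n}`, with rational coefficients. -/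
def ChowRing (n : ℕ) (U : Set (PTree n)) : Type :=
  StrataRing n ⧸ (relations n ⊔ outside n U)

noncomputable instance (n : ℕ) (U : Set (PTree n)) : CommRing (ChowRing n U) :=
  Ideal.Quotient.commRing (relations n ⊔ outside n U)

noncomputable instance (n : ℕ) (U : Set (PTree n)) : Algebra ℚ (ChowRing n U) :=
  Ideal.instAlgebraQuotient ℚ (relations n ⊔ outside n U)

end Pool.Agent.PrestableChow
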