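import Mathlib
import Pool.Agent.Lib_MP_ce8637_ag.Defs

/-!
Combinatorics of trees and contractions.
-/

set_option autoImplicit false

open MvPolynomial

namespace Pool.Agent.PrestableChow

section Joined

variable {V E V' E' : Type} {ends : E × Bool → V} {ends' : E' × Bool → V'}

theorem Joined.refl (ends : E × Bool → V) (P : Set E) (v : V) : Joined ends P v v :=
  Relation.EqvGen.refl v

theorem Joined.symm {P : Set E} {v w : V} (h : Joined ends P v w) : Joined ends P w v :=
  Relation.EqvGen.symm _ _ h

theorem Joined.trans {P : Set E} {u v w : V} (h : Joined ends P u v) (h' : Joined ends P v w) :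
    Joined ends P u w :=
  Relation.EqvGen.trans _ _ _ h h'

theorem Joined.mono {P Q : Set E} (hPQ : P ⊆ Q) {v w : V} (h : Joined ends P v w) :
    Joined ends Q v w := by
  induction h with
  | rel x y h =>
    obtain ⟨e, he, h1, h2⟩ := h
    exact Relation.EqvGen.rel _ _ ⟨e, hPQ he, h1, h2⟩
  | refl x => exact Joined.refl _ _ _
  | symm x y _ ih => exact ih.symm
  | trans x y z _ _ ih1 ih2 => exact ih1.trans ih2

theorem joined_edge {P : Set E} {e : E} (he : e ∈ P) (b b' : Bool) :
    Joined ends P (ends (e, b)) (ends (e, b')) := by
  have h1 : Joined ends P (ends (e, false)) (ends (e, true)) :=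
    Relation.EqvGen.rel _ _ ⟨e, he, rfl, rfl⟩
  cases b <;> cases b'
  · exact Joined.refl _ _ _
  · exact h1
  · exact h1.symm
  · exact Joined.refl _ _ _

theorem Joined.map {P : Set E} {P' : Set E'} (φ : V → V')
    (hφ : ∀ e ∈ P, Joined ends' P' (φ (ends (e, false))) (φ (ends (e, true)))) {v w : V}
    (h : Joined ends P v w) : Joined ends' P' (φ v) (φ w) := by
  induction h with
  | rel x y h =>
    obtain ⟨e, he, rfl, rfl⟩ := h
    exact hφ e he
  | refl x => exact Joined.refl _ _ _
  | symm x y _ ih => exact ih.symm
  | trans x y z _ _ ih1 ih2 => exact ih1.trans ih2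

/-- a property which is invariant along the edges in `P` is invariant under `Joined` -/
theorem Joined.invariant {P : Set E} (Q : V → Prop)
    (hQ : ∀ e ∈ P, Q (ends (e, false)) ↔ Q (ends (e, true))) {v w : V}
    (h : Joined ends P v w) : Q v ↔ Q w := by
  induction h with
  | rel x y h =>
    obtain ⟨e, he, rfl, rfl⟩ := h
    exact hQ e he
  | refl x => exact Iff.rfl
  | symm x y _ ih => exact ih.symm
  | trans x y z _ _ ih1 ih2 => exact ih1.trans ih2

/-- a connected graph has at most one more vertex than edges -/
theorem card_le_of_joined [Fintype V] (P : Finset E) [Nonempty V]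
    (h : ∀ v w, Joined ends (P : Set E) v w) : Fintype.card V ≤ P.card + 1 := by
  classical
  obtain ⟨v0⟩ := ‹Nonempty V›
  let L : (V → ℚ) →ₗ[ℚ] (P → ℚ) × ℚ :=
    LinearMap.prod
      (LinearMap.pi fun e : P => (LinearMap.proj (ends (e.1, true)) : (V → ℚ) →ₗ[ℚ] ℚ) -
        (LinearMap.proj (ends (e.1, false)) : (V → ℚ) →ₗ[ℚ] ℚ))
      (LinearMap.proj v0 : (V → ℚ) →ₗ[ℚ] ℚ)
  have hL : Function.Injective L := by
    rw [← LinearMap.ker_eq_bot, LinearMap.ker_eq_bot']
    intro f hf
    have h1 : ∀ e ∈ P, f (ends (e, false)) = f (ends (e, true)) := by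
      intro e he
      have h2 : f (ends (e, true)) - f (ends (e, false)) = 0 :=
        congrFun (congrArg Prod.fst hf) ⟨e, he⟩
      linarith
    have h3 : f v0 = 0 := congrArg Prod.snd hf
    funext v
    have := (h v v0).invariant (fun x => f x = 0) (fun e he => by rw [h1 e he])
    simpa using this.mpr h3
  have h4 := LinearMap.finrank_le_finrank_of_injective hL
  simpa using h4

end Joined

variable {n : ℕ}

/-- In a tree every edge is a bridge. -/
theorem PTree.bridge (Γ : PTree n) (e : Γ.Edge) :
    Separates Γ e (Γ.ends (e, false)) (Γ.ends (e, true)) := by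
  classical
  intro h
  have h1 : ∀ v w, Joined Γ.ends ((Finset.univ.erase e : Finset Γ.Edge) : Set Γ.Edge) v w := by
    intro v w
    refine Joined.map (ends := Γ.ends) (P := Set.univ) (fun x => x) ?_ (Γ.conn v w)
    intro e' _
    by_cases he : e' = e
    · subst he
      exact h.mono (fun x hx => by simpa using hx)
    · exact joined_edge (by simpa using he) _ _
  have h2 := card_le_of_joined _ h1
  rw [Finset.card_erase_of_mem (Finset.mem_univ e)] at h2
  simp only [Fintype.card_fin, Finset.card_univ] at h2
  have := e.2
  omega

theorem PTree.ends_ne (Γ : PTree n) (e : Γ.Edge) : Γ.ends (e, false) ≠ Γ.ends (e, true) := by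
  intro h
  apply Γ.bridge e
  rw [h]
  exact Joined.refl _ _ _

theorem Separates.symm {Γ : PTree n} {e : Γ.Edge} {v w : Γ.Vert} (h : Separates Γ e v w) :
    Separates Γ e w v := fun h' => h h'.symm

theorem separates_comm {Γ : PTree n} {e : Γ.Edge} {v w : Γ.Vert} :
    Separates Γ e v w ↔ Separates Γ e w v := ⟨Separates.symm, Separates.symm⟩

/-- every vertex lies on exactly one side of an edge -/
theorem separates_flip {Γ : PTree n} (e : Γ.Edge) (b : Bool) (v : Γ.Vert) :
    Separates Γ e (Γ.ends (e, b)) v ↔ ¬ Separates Γ e (Γ.ends (e, !b)) v := by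
  have key : ¬ Separates Γ e (Γ.ends (e, false)) v ↔ Separates Γ e (Γ.ends (e, true)) v := by
    constructor
    · intro h
      unfold Separates at h
      rw [not_not] at h
      intro h'
      exact Γ.bridge e (h.trans h'.symm)
    · intro h h'
      -- otherwise neither end is joined to `v`
      have hinv := (Γ.conn v (Γ.ends (e, false))).invariant
        (fun x => Joined Γ.ends {e' | e' ≠ e} (Γ.ends (e, false)) x ∨
          Joined Γ.ends {e' | e' ≠ e} (Γ.ends (e, true)) x) (by
          intro e' _
          by_cases he : e' = e
          · subst he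
            exact ⟨fun _ => Or.inr (Joined.refl _ _ _), fun _ => Or.inl (Joined.refl _ _ _)⟩
          · constructor
            · rintro (h1 | h1)
              · exact Or.inl (h1.trans (joined_edge he _ _))
              · exact Or.inr (h1.trans (joined_edge he _ _))
            · rintro (h1 | h1)
              · exact Or.inl (h1.trans (joined_edge he _ _))
              · exact Or.inr (h1.trans (joined_edge he _ _)))
      rcases hinv.mpr (Or.inl (Joined.refl _ _ _)) with h1 | h1
      · exact h' h1
      · exact h h1
  cases b
  · simp only [Bool.not_false]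
    rw [← key, not_not]
  · simp only [Bool.not_true]
    exact key.symm

namespace Contraction

variable {Δ' Δ Γ : PTree n}

theorem flip_flip {E : Type} (h : E × Bool) : flip (flip h) = h := by
  simp [flip]

/-- the contracted edges -/
def contracted (f : Contraction Δ Γ) : Set Δ.Edge := {e | ∀ h, (f.half h).1 ≠ e}

theorem mem_contracted {f : Contraction Δ Γ} {e : Δ.Edge} :
    e ∈ f.contracted ↔ ∀ h, (f.half h).1 ≠ e := Iff.rfl

theorem half_fst (f : Contraction Δ Γ) (h : Γ.Half) : (f.half h).1 = f.edge h.1 := by
  obtain ⟨e, b⟩ := h
  cases b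
  · rfl
  · have : ((e, true) : Γ.Half) = flip (e, false) := rfl
    rw [this, f.half_flip]
    rfl

theorem edge_injective (f : Contraction Δ Γ) : Function.Injective f.edge := by
  intro e e' h
  -- the half-edge `f.half (e, false)` is one of the two halves of `f.edge e'`
  have h1 : f.half (e, false) = f.half (e', false) ∨ f.half (e, false) = flip (f.half (e', false)) := by
    have : (f.half (e, false)).1 = (f.half (e', false)).1 := h
    by_cases hb : (f.half (e, false)).2 = (f.half (e', false)).2
    · exact Or.inl (Prod.ext this hb)
    · right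
      refine Prod.ext_iff.mpr ⟨this, ?_⟩
      show (f.half (e, false)).2 = !(f.half (e', false)).2
      cases h2 : (f.half (e, false)).2 <;> cases h3 : (f.half (e', false)).2 <;> simp_all
  rcases h1 with h1 | h1
  · exact congrArg Prod.fst (f.half_injective h1)
  · rw [← f.half_flip] at h1
    exact congrArg Prod.fst (f.half_injective h1)

theorem mem_contracted_iff {f : Contraction Δ Γ} {e : Δ.Edge} :
    e ∈ f.contracted ↔ ∀ e', f.edge e' ≠ e := by
  rw [mem_contracted]
  constructor
  · intro h e'
    exact h (e', false)
  · intro h h'
    rw [half_fst]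
    exact h _

theorem not_mem_contracted {f : Contraction Δ Γ} {e : Δ.Edge} (he : e ∉ f.contracted) :
    ∃ e', f.edge e' = e := by
  rw [mem_contracted_iff] at he
  push Not at he
  exact he

theorem edge_not_mem_contracted (f : Contraction Δ Γ) (e : Γ.Edge) : f.edge e ∉ f.contracted := by
  rw [mem_contracted_iff]
  push Not
  exact ⟨e, rfl⟩

/-- the half-edges of `f.edge e` are those coming from the half-edges of `e` -/
theorem half_cases (f : Contraction Δ Γ) (e : Γ.Edge) (b : Bool) :
    ∃ b', f.half (e, b') = (f.edge e, b) := by
  by_cases h : (f.half (e, false)).2 = b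
  · exact ⟨false, Prod.ext rfl h⟩
  · refine ⟨true, ?_⟩
    have : ((e, true) : Γ.Half) = flip (e, false) := rfl
    rw [this, f.half_flip]
    refine Prod.ext_iff.mpr ⟨rfl, ?_⟩
    show (!(f.half (e, false)).2) = b
    cases b <;> simp_all

theorem vert_surjective (f : Contraction Δ Γ) : Function.Surjective f.vert := by
  intro x
  have h := (Γ.conn (f.vert 0) x).invariant (fun y => ∃ v, f.vert v = y) (by
    intro e _
    exact ⟨fun _ => ⟨_, f.vert_ends _⟩, fun _ => ⟨_, f.vert_ends _⟩⟩)
  exact h.mp ⟨0, rfl⟩

theorem vert_ends_contracted (f : Contraction Δ Γ) {e : Δ.Edge} (he : e ∈ f.contracted)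
    (b b' : Bool) : f.vert (Δ.ends (e, b)) = f.vert (Δ.ends (e, b')) :=
  (f.vert_eq_iff _ _).mpr (joined_edge he b b')

/-- the identity contraction -/
def id (Γ : PTree n) : Contraction Γ Γ where
  vert v := v
  half h := h
  half_injective := fun _ _ h => h
  half_flip _ := rfl
  vert_ends _ := rfl
  vert_leg _ := rfl
  vert_eq_iff v w := by
    constructor
    · rintro rfl
      exact Joined.refl _ _ _
    · intro h
      have := h.invariant (fun x => x = w) (fun e he => absurd rfl
        ((show ∀ h : Γ.Half, h.1 ≠ e from he) (e, false)))
      exact this.mpr rfl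

/-- lifting paths along a contraction -/
theorem joined_lift (g : Contraction Δ' Δ) {P : Set Δ.Edge} {P' : Set Δ'.Edge}
    (hP : ∀ e', e' ∈ P' ↔ e' ∈ g.contracted ∨ ∃ e ∈ P, g.edge e = e') (v w : Δ'.Vert) :
    Joined Δ'.ends P' v w ↔ Joined Δ.ends P (g.vert v) (g.vert w) := by
  constructor
  · intro h
    refine Joined.map g.vert ?_ h
    intro e' he'
    rcases (hP e').mp he' with hc | ⟨e, he, rfl⟩
    · rw [g.vert_ends_contracted hc false true]
      exact Joined.refl _ _ _
    · obtain ⟨b, hb⟩ := g.half_cases e false
      obtain ⟨b', hb'⟩ := g.half_cases e true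
      rw [← hb, ← hb', g.vert_ends, g.vert_ends]
      exact joined_edge he _ _
  · intro h
    have key : ∀ x y, Joined Δ.ends P x y → ∀ v w, g.vert v = x → g.vert w = y →
        Joined Δ'.ends P' v w := by
      intro x y hxy
      have hcontr : ∀ v w, g.vert v = g.vert w → Joined Δ'.ends P' v w := by
        intro v w h
        exact ((g.vert_eq_iff v w).mp h).mono (fun e' he' => (hP e').mpr (Or.inl he'))
      induction hxy with
      | rel x y h =>
        obtain ⟨e, he, rfl, rfl⟩ := h
        intro v w hv hw
        have h1 := hcontr v _ (hv.trans (g.vert_ends (e, false)).symm)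
        have h2 := hcontr _ w ((g.vert_ends (e, true)).trans hw.symm)
        refine h1.trans (Joined.trans ?_ h2)
        have h3 : g.half (e, false) = (g.edge e, (g.half (e, false)).2) := rfl
        have h4 : g.half (e, true) = (g.edge e, (g.half (e, true)).2) :=
          Prod.ext (g.half_fst _) rfl
        rw [h3, h4]
        exact joined_edge ((hP _).mpr (Or.inr ⟨e, he, rfl⟩)) _ _
      | refl x =>
        intro v w hv hw
        exact hcontr v w (hv.trans hw.symm)
      | symm x y _ ih =>
        intro v w hv hw
        exact (ih w v hw hv).symm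
      | trans x y z _ _ ih1 ih2 =>
        intro v w hv hw
        obtain ⟨u, hu⟩ := g.vert_surjective y
        exact (ih1 v u hv hu).trans (ih2 u w hu hw)
    exact key _ _ h v w rfl rfl

/-- composition of contractions -/
def comp (g : Contraction Δ' Δ) (f : Contraction Δ Γ) : Contraction Δ' Γ where
  vert v := f.vert (g.vert v)
  half h := g.half (f.half h)
  half_injective := g.half_injective.comp f.half_injective
  half_flip h := by rw [f.half_flip, g.half_flip]
  vert_ends h := by rw [g.vert_ends, f.vert_ends]
  vert_leg i := by rw [g.vert_leg, f.vert_leg]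
  vert_eq_iff v w := by
    rw [f.vert_eq_iff]
    symm
    apply g.joined_lift
    intro e'
    constructor
    · intro h
      by_cases hc : e' ∈ g.contracted
      · exact Or.inl hc
      · right
        obtain ⟨e, rfl⟩ := not_mem_contracted hc
        refine ⟨e, ?_, rfl⟩
        intro h1 h2
        apply h h1
        rw [half_fst, h2]
    · rintro (hc | ⟨e, he, rfl⟩) h
      · exact hc (f.half h)
      · rw [half_fst]
        intro h'
        exact he h (g.edge_injective h')

@[simp] theorem comp_vert (g : Contraction Δ' Δ) (f : Contraction Δ Γ) (v : Δ'.Vert) :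
    (g.comp f).vert v = f.vert (g.vert v) := rfl

@[simp] theorem comp_half (g : Contraction Δ' Δ) (f : Contraction Δ Γ) (h : Γ.Half) :
    (g.comp f).half h = g.half (f.half h) := rfl

theorem comp_edge (g : Contraction Δ' Δ) (f : Contraction Δ Γ) (e : Γ.Edge) :
    (g.comp f).edge e = g.edge (f.edge e) := by
  show (g.half (f.half (e, false))).1 = _
  rw [half_fst]
  rfl

@[simp] theorem comp_flag (g : Contraction Δ' Δ) (f : Contraction Δ Γ) (a : Γ.Flag) :
    (g.comp f).flag a = g.flag (f.flag a) := by
  rcases a with h | i <;> rfl

theorem comp_id (f : Contraction Δ Γ) : f.comp (Contraction.id Γ) = f := by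
  ext1 <;> rfl

theorem comp_left_injective (g : Contraction Δ' Δ) :
    Function.Injective (fun f : Contraction Δ Γ => g.comp f) := by
  intro f1 f2 h
  ext1
  · funext x
    obtain ⟨v, rfl⟩ := g.vert_surjective x
    exact congrFun (congrArg Contraction.vert h) v
  · funext x
    exact g.half_injective (congrFun (congrArg Contraction.half h) x)

theorem flag_injective (g : Contraction Δ' Δ) : Function.Injective g.flag := by
  intro a b h
  rcases a with a | a <;> rcases b with b | b
  · exact congrArg Sum.inl (g.half_injective (Sum.inl.inj h))
  · cases h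
  · cases h
  · exact congrArg Sum.inr (Sum.inr.inj h)

theorem vert_base (g : Contraction Δ' Δ) (a : Δ.Flag) :
    g.vert (Δ'.base (g.flag a)) = Δ.base a := by
  rcases a with h | i
  · exact g.vert_ends h
  · exact g.vert_leg i

/-- a contraction which contracts all the edges contracted by `g` factors through `g` -/
theorem exists_factor (g : Contraction Δ' Δ) (f' : Contraction Δ' Γ)
    (h : ∀ x, ∃ y, g.half y = f'.half x) : ∃ f : Contraction Δ Γ, g.comp f = f' := by
  choose H hH using h
  have hcon : g.contracted ⊆ f'.contracted := by
    intro e he x hx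
    rw [← hH, half_fst] at hx
    exact (mem_contracted_iff.mp he) _ hx
  have hv : ∀ v w, g.vert v = g.vert w → f'.vert v = f'.vert w := by
    intro v w hvw
    exact (f'.vert_eq_iff v w).mpr (((g.vert_eq_iff v w).mp hvw).mono hcon)
  let L := Function.surjInv g.vert_surjective
  have hL : ∀ x, g.vert (L x) = x := Function.surjInv_eq g.vert_surjective
  have hcomm : ∀ v, f'.vert (L (g.vert v)) = f'.vert v := fun v => hv _ _ (hL _)
  refine ⟨{ vert := fun x => f'.vert (L x), half := H, half_injective := ?_, half_flip := ?_, vert_ends := ?_, vert_leg := ?_, vert_eq_iff := ?_ }, ?_⟩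
  · intro x y hxy
    apply f'.half_injective
    rw [← hH, ← hH, hxy]
  · intro x
    apply g.half_injective
    rw [hH, g.half_flip, hH, f'.half_flip]
  · intro x
    rw [← g.vert_ends, hcomm, hH, f'.vert_ends]
  · intro i
    rw [← g.vert_leg, hcomm, f'.vert_leg]
  · intro x y
    rw [f'.vert_eq_iff]
    have := g.joined_lift (P := {e | ∀ h, (H h).1 ≠ e}) (P' := {e | ∀ h, (f'.half h).1 ≠ e})
      (by
        intro e'
        constructor
        · intro h
          by_cases hc : e' ∈ g.contracted
          · exact Or.inl hc
          · right
            obtain ⟨e, rfl⟩ := not_mem_contracted hc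
            refine ⟨e, ?_, rfl⟩
            intro x hx
            apply h x
            rw [← hH, half_fst, hx]
        · rintro (hc | ⟨e, he, rfl⟩) x
          · exact hcon hc x
          · rw [← hH, half_fst]
            intro h'
            exact he x (g.edge_injective h')) (L x) (L y)
    rw [this, hL, hL]
  · ext1
    · funext v
      exact hcomm v
    · funext x
      exact hH x

theorem card_le (f : Contraction Δ Γ) : Γ.nE ≤ Δ.nE := by
  have := Fintype.card_le_of_injective f.edge f.edge_injective
  simpa using this

/-- a contraction between trees with the same number of edges contracts nothing -/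
theorem contracted_eq_empty (f : Contraction Δ Γ) (h : Δ.nE ≤ Γ.nE) : f.contracted = ∅ := by
  have hs : Function.Surjective f.edge := by
    have hb : Function.Bijective f.edge := by
      rw [Fintype.bijective_iff_injective_and_card]
      exact ⟨f.edge_injective, by simpa using le_antisymm f.card_le h⟩
    exact hb.2
  rw [Set.eq_empty_iff_forall_notMem]
  intro e he
  obtain ⟨e', rfl⟩ := hs e
  exact f.edge_not_mem_contracted e' he

theorem half_surjective (f : Contraction Δ Γ) (h : Δ.nE ≤ Γ.nE) : Function.Surjective f.half := by
  rintro ⟨e, b⟩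
  have he : e ∉ f.contracted := by
    rw [f.contracted_eq_empty h]
    exact Set.notMem_empty e
  obtain ⟨e', rfl⟩ := not_mem_contracted he
  obtain ⟨b', hb'⟩ := f.half_cases e' b
  exact ⟨_, hb'⟩

end Contraction

/-- the contraction of one edge -/
theorem exists_contract (Γ : PTree n) (e : Γ.Edge) :
    ∃ (Δ : PTree n) (g : Contraction Γ Δ), Δ.nE + 1 = Γ.nE ∧ g.contracted = {e} := by
  classical
  obtain ⟨nE, ends, leg, conn⟩ := Γ
  cases nE with
  | zero => exact e.elim0
  | succ m =>
    have hab := PTree.ends_ne ⟨m + 1, ends, leg, conn⟩ e
    simp only at hab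
    set a := ends (e, false) with ha
    set b := ends (e, true) with hb
    -- the quotient map
    have hq : ∃ q : Fin (m + 1 + 1) → Fin (m + 1), ∀ v w, q v = q w ↔
        v = w ∨ (v = a ∧ w = b) ∨ (v = b ∧ w = a) := by
      have hs : ∀ v, ∃ x : Fin (m + 1), b.succAbove x = if v = b then a else v := by
        intro v
        rw [Fin.exists_succAbove_eq_iff]
        split_ifs with h
        · exact hab
        · exact h
      choose q hq using hs
      refine ⟨q, fun v w => ?_⟩
      have h1 : q v = q w ↔ (if v = b then a else v) = (if w = b then a else w) := by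
        rw [← hq, ← hq]
        exact (Fin.succAbove_right_injective.eq_iff).symm
      rw [h1]
      by_cases hv : v = b <;> by_cases hw : w = b
      · simp [hv, hw]
      · rw [if_pos hv, if_neg hw]
        constructor
        · rintro rfl
          exact Or.inr (Or.inr ⟨hv, rfl⟩)
        · rintro (h | ⟨_, h⟩ | ⟨_, h⟩)
          · exact absurd (h.symm.trans hv) hw
          · exact absurd h hw
          · exact h.symm
      · rw [if_neg hv, if_pos hw]
        constructor
        · intro h
          exact Or.inr (Or.inl ⟨h, hw⟩)
        · rintro (h | ⟨h, _⟩ | ⟨h, _⟩)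
          · exact absurd (h.trans hw) hv
          · exact h
          · exact absurd h hv
      · rw [if_neg hv, if_neg hw]
        constructor
        · exact Or.inl
        · rintro (h | ⟨_, h⟩ | ⟨h, _⟩)
          · exact h
          · exact absurd h hw
          · exact absurd h hv
    obtain ⟨q, hq⟩ := hq
    have hqe : q (ends (e, false)) = q (ends (e, true)) := (hq _ _).mpr (Or.inr (Or.inl ⟨rfl, rfl⟩))
    have hqs : Function.Surjective q := by
      -- by cardinality
      by_contra hns
      have hinj : Set.InjOn q {v | v ≠ b} := by
        intro v hv w hw h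
        rcases (hq v w).mp h with h | ⟨_, h⟩ | ⟨h, _⟩
        · exact h
        · exact absurd h hw
        · exact absurd h hv
      have h1 : (Finset.univ.erase b).card = m + 1 := by
        rw [Finset.card_erase_of_mem (Finset.mem_univ b)]
        simp
      have h2 : ((Finset.univ.erase b).image q).card = m + 1 := by
        rw [Finset.card_image_of_injOn, h1]
        intro v hv w hw h
        exact hinj (by simpa using hv) (by simpa using hw) h
      have h3 : (Finset.univ.erase b).image q = Finset.univ := by
        rw [← Finset.card_eq_iff_eq_univ, h2]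
        simp
      apply hns
      intro x
      have : x ∈ (Finset.univ.erase b).image q := by rw [h3]; exact Finset.mem_univ x
      obtain ⟨v, _, rfl⟩ := Finset.mem_image.mp this
      exact ⟨v, rfl⟩
    let Δ : PTree n :=
      { nE := m
        ends := fun h => q (ends (e.succAbove h.1, h.2))
        leg := fun i => q (leg i)
        conn := by
          intro x y
          obtain ⟨v, rfl⟩ := hqs x
          obtain ⟨w, rfl⟩ := hqs y
          refine Joined.map q ?_ (conn v w)
          intro e' _
          by_cases he : e' = e
          · subst he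
            rw [hqe]
            exact Joined.refl _ _ _
          · obtain ⟨e'', rfl⟩ := Fin.exists_succAbove_eq he
            exact joined_edge (ends := fun h : Fin m × Bool => q (ends (e.succAbove h.1, h.2)))
              (Set.mem_univ e'') false true }
    have hset : {e' : Fin (m + 1) | ∀ h : Fin m × Bool, ((e.succAbove h.1, h.2) : Fin (m + 1) × Bool).1 ≠ e'}
        = {e} := by
      ext e'
      simp only [Set.mem_ofPred_eq, Set.mem_singleton_iff]
      constructor
      · intro h
        by_contra hne
        obtain ⟨e'', he''⟩ := Fin.exists_succAbove_eq hne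
        exact h (e'', false) he''
      · rintro rfl h
        exact Fin.succAbove_ne _ _
    refine ⟨Δ, { vert := q, half := fun h => (e.succAbove h.1, h.2), half_injective := ?_, half_flip := ?_, vert_ends := ?_, vert_leg := ?_, vert_eq_iff := ?_ }, rfl, hset⟩
    · rintro ⟨x, c⟩ ⟨y, d⟩ h
      simp only [Prod.mk.injEq] at h
      exact Prod.ext (Fin.succAbove_right_injective h.1) h.2
    · intro h
      rfl
    · intro h
      rfl
    · intro i
      rfl
    · intro v w
      show _ ↔ Joined ends _ v w
      rw [hset, hq]
      constructor
      · rintro (rfl | ⟨rfl, rfl⟩ | ⟨rfl, rfl⟩)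
        · exact Joined.refl _ _ _
        · exact joined_edge (Set.mem_singleton e) _ _
        · exact joined_edge (Set.mem_singleton e) _ _
      · intro h
        rw [← hq]
        have := h.invariant (fun x => q x = q w) (by
          intro e' he'
          rw [Set.mem_singleton_iff] at he'
          subst he'
          rw [hqe])
        exact this.mpr rfl

end Pool.Agent.PrestableChow
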