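import Mathlib
import Pool.Agent.Lib_MP_ce8637_ag.Comb

/-!
Compatible families of polynomials, and the fact that they are the combinations of decorated
strata classes.
-/

set_option autoImplicit false

open MvPolynomial

namespace Pool.Agent.PrestableChow

variable {n : ℕ}

namespace Contraction

variable {Δ' Δ Γ : PTree n}

theorem pull_psi (f : Contraction Δ Γ) (a : Γ.Flag) : f.pull (psi a) = psi (f.flag a) := by
  simp [pull, psi]

theorem pull_kappa (f : Contraction Δ Γ) (v : Γ.Vert) :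
    f.pull (kappa v) = ∑ w with f.vert w = v, kappa w := by
  simp [pull, kappa]

theorem pull_normal (f : Contraction Δ Γ) (e : Γ.Edge) :
    f.pull (normal e) = normal (f.edge e) := by
  unfold normal
  rw [map_neg, map_add, pull_psi, pull_psi]
  have h1 : f.flag (Sum.inl (e, false)) = Sum.inl (f.edge e, (f.half (e, false)).2) := rfl
  have h2 : f.flag (Sum.inl (e, true)) = Sum.inl (f.edge e, !(f.half (e, false)).2) := by
    show Sum.inl (f.half (flip (e, false))) = _
    rw [f.half_flip]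
    rfl
  rw [h1, h2]
  cases (f.half (e, false)).2
  · rfl
  · rw [Bool.not_true, add_comm]

theorem pull_comp (g : Contraction Δ' Δ) (f : Contraction Δ Γ) (p : Dec Γ) :
    (g.comp f).pull p = g.pull (f.pull p) := by
  have h : (g.comp f).pull = g.pull.comp f.pull := by
    apply MvPolynomial.algHom_ext
    rintro (a | v)
    · show (g.comp f).pull (psi a) = g.pull (f.pull (psi a))
      rw [pull_psi, pull_psi, pull_psi, comp_flag]
    · show (g.comp f).pull (kappa v) = g.pull (f.pull (kappa v))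
      rw [pull_kappa, pull_kappa, map_sum]
      simp only [pull_kappa]
      show (∑ w with f.vert (g.vert w) = v, kappa w : Dec Δ') = _
      rw [← Finset.sum_fiberwise_of_maps_to (s := Finset.univ.filter fun w => f.vert (g.vert w) = v)
        (t := Finset.univ.filter fun w => f.vert w = v) (g := g.vert)
        (fun w hw => by simpa using hw)]
      apply Finset.sum_congr rfl
      intro w hw
      apply Finset.sum_congr _ (fun _ _ => rfl)
      ext w'
      simp only [Finset.mem_filter, Finset.mem_univ, true_and] at hw ⊢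
      constructor
      · rintro ⟨_, h⟩
        exact h
      · rintro rfl
        exact ⟨hw, rfl⟩
  rw [h]
  rfl

/-- the ideal generated by the normal classes of the contracted edges -/
noncomputable def cIdeal (g : Contraction Δ' Δ) : Ideal (Dec Δ') :=
  Ideal.span (normal '' g.contracted)

theorem normal_mem_cIdeal (g : Contraction Δ' Δ) {e : Δ'.Edge} (he : e ∈ g.contracted) :
    normal e ∈ g.cIdeal :=
  Ideal.subset_span ⟨e, he, rfl⟩

theorem cIdeal_eq_bot (g : Contraction Δ' Δ) (h : Δ'.nE ≤ Δ.nE) : g.cIdeal = ⊥ := by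
  unfold cIdeal
  rw [g.contracted_eq_empty h, Set.image_empty, Ideal.span_empty]

end Contraction

theorem mul_sub_mul_mem {R : Type} [CommRing R] {I : Ideal R} {a a' b b' : R} (h : a - a' ∈ I)
    (h' : b - b' ∈ I) : a * b - a' * b' ∈ I := by
  have : a * b - a' * b' = (a - a') * b + a' * (b - b') := by ring
  rw [this]
  exact I.add_mem (I.mul_mem_right _ h) (I.mul_mem_left _ h')

/-- compatible families of classes over the `Γ`-structures -/
def CompatOver (Γ : PTree n) (β : ∀ Δ : PTree n, Contraction Δ Γ → Dec Δ) : Prop :=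
  ∀ (Δ' Δ : PTree n) (g : Contraction Δ' Δ) (f : Contraction Δ Γ),
    β Δ' (g.comp f) - g.pull (β Δ f) ∈ g.cIdeal

/-- compatible families -/
def Compat (x : ∀ Δ : PTree n, Dec Δ) : Prop :=
  ∀ (Δ' Δ : PTree n) (g : Contraction Δ' Δ), x Δ' - g.pull (x Δ) ∈ g.cIdeal

section CompatOver

variable {Γ : PTree n} {β β' : ∀ Δ : PTree n, Contraction Δ Γ → Dec Δ}

theorem CompatOver.mul (h : CompatOver Γ β) (h' : CompatOver Γ β') :
    CompatOver Γ (fun Δ f => β Δ f * β' Δ f) := by
  intro Δ' Δ g f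
  rw [map_mul]
  exact mul_sub_mul_mem (h _ _ g f) (h' _ _ g f)

theorem CompatOver.sub (h : CompatOver Γ β) (h' : CompatOver Γ β') :
    CompatOver Γ (fun Δ f => β Δ f - β' Δ f) := by
  intro Δ' Δ g f
  rw [map_sub]
  have := g.cIdeal.sub_mem (h _ _ g f) (h' _ _ g f)
  convert this using 1
  ring

theorem CompatOver.add (h : CompatOver Γ β) (h' : CompatOver Γ β') :
    CompatOver Γ (fun Δ f => β Δ f + β' Δ f) := by
  intro Δ' Δ g f
  rw [map_add]
  have := g.cIdeal.add_mem (h _ _ g f) (h' _ _ g f)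
  convert this using 1
  ring

theorem compatOver_pull (α : Dec Γ) : CompatOver Γ (fun _ f => f.pull α) := by
  intro Δ' Δ g f
  simp only
  rw [Contraction.pull_comp, sub_self]
  exact g.cIdeal.zero_mem

theorem push_compat (h : CompatOver Γ β) : Compat (push Γ β) := by
  classical
  intro Δ' Δ g
  unfold push
  rw [map_sum]
  let S : Finset (Contraction Δ' Γ) := Finset.univ.image (fun f : Contraction Δ Γ => g.comp f)
  have h1 : ∑ f' : Contraction Δ' Γ, β Δ' f' * ∏ e : Γ.Edge, normal (f'.edge e) =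
      ∑ f : Contraction Δ Γ, β Δ' (g.comp f) * ∏ e : Γ.Edge, normal ((g.comp f).edge e) +
      ∑ f' ∈ Sᶜ, β Δ' f' * ∏ e : Γ.Edge, normal (f'.edge e) := by
    rw [← Finset.sum_add_sum_compl S]
    congr 1
    rw [Finset.sum_image]
    intro f1 _ f2 _ h12
    exact g.comp_left_injective h12
  rw [h1]
  have h2 : ∑ f' ∈ Sᶜ, β Δ' f' * ∏ e : Γ.Edge, normal (f'.edge e) ∈ g.cIdeal := by
    apply Ideal.sum_mem
    intro f' hf'
    rw [Finset.mem_compl] at hf'
    have h3 : ∃ e, f'.edge e ∈ g.contracted := by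
      by_contra hcon
      push Not at hcon
      apply hf'
      obtain ⟨f, hf⟩ := g.exists_factor f' (by
        rintro ⟨e, b⟩
        obtain ⟨e1, he1⟩ := Contraction.not_mem_contracted (hcon e)
        obtain ⟨b1, hb1⟩ := g.half_cases e1 (f'.half (e, b)).2
        refine ⟨(e1, b1), ?_⟩
        rw [hb1, he1]
        exact Prod.ext (f'.half_fst (e, b)).symm rfl)
      rw [Finset.mem_image]
      exact ⟨f, Finset.mem_univ _, hf⟩
    obtain ⟨e, he⟩ := h3
    apply Ideal.mul_mem_left
    rw [← Finset.mul_prod_erase Finset.univ _ (Finset.mem_univ e)]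
    exact Ideal.mul_mem_right _ _ (g.normal_mem_cIdeal he)
  have h4 : ∑ f : Contraction Δ Γ, β Δ' (g.comp f) * ∏ e : Γ.Edge, normal ((g.comp f).edge e) -
      ∑ f : Contraction Δ Γ, g.pull (β Δ f * ∏ e : Γ.Edge, normal (f.edge e)) ∈ g.cIdeal := by
    rw [← Finset.sum_sub_distrib]
    apply Ideal.sum_mem
    intro f _
    rw [map_mul, map_prod]
    simp only [Contraction.pull_normal, Contraction.comp_edge]
    rw [← sub_mul]
    exact Ideal.mul_mem_right _ _ (h _ _ g f)
  rw [add_sub_right_comm]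
  exact Ideal.add_mem _ h4 h2

end CompatOver

/-- a compatible family is invariant under isomorphisms -/
theorem Compat.eq_pull {x : ∀ Δ : PTree n, Dec Δ} (hx : Compat x) {Δ Γ : PTree n}
    (f : Contraction Δ Γ) (h : Δ.nE ≤ Γ.nE) : x Δ = f.pull (x Γ) := by
  have := hx _ _ f
  rw [f.cIdeal_eq_bot h, Ideal.mem_bot] at this
  exact sub_eq_zero.mp this

section Degree

/-- the degrees are bounded -/
def Bdd (x : ∀ Δ : PTree n, Dec Δ) : Prop := ∃ d, ∀ Δ, (x Δ).totalDegree ≤ d

/-- the degrees are bounded -/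
def BddOver (Γ : PTree n) (β : ∀ Δ : PTree n, Contraction Δ Γ → Dec Δ) : Prop :=
  ∃ d, ∀ Δ f, (β Δ f).totalDegree ≤ d

theorem psi_isHomogeneous {Γ : PTree n} (a : Γ.Flag) : (psi a).IsHomogeneous 1 :=
  isHomogeneous_X _ _

theorem kappa_isHomogeneous {Γ : PTree n} (v : Γ.Vert) : (kappa v).IsHomogeneous 1 :=
  isHomogeneous_X _ _

theorem normal_isHomogeneous {Γ : PTree n} (e : Γ.Edge) : (normal e).IsHomogeneous 1 :=
  ((psi_isHomogeneous _).add (psi_isHomogeneous _)).neg

theorem psi_degree {Γ : PTree n} (a : Γ.Flag) : (psi a).totalDegree ≤ 1 :=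
  (psi_isHomogeneous a).totalDegree_le

theorem kappa_degree {Γ : PTree n} (v : Γ.Vert) : (kappa v).totalDegree ≤ 1 :=
  (kappa_isHomogeneous v).totalDegree_le

theorem normal_degree {Γ : PTree n} (e : Γ.Edge) : (normal e).totalDegree ≤ 1 :=
  (normal_isHomogeneous e).totalDegree_le

theorem pull_degree {Δ Γ : PTree n} (f : Contraction Δ Γ) (p : Dec Γ) :
    (f.pull p).totalDegree ≤ p.totalDegree := by
  rw [Contraction.pull, aeval_def, eval₂_eq]
  apply totalDegree_finsetSum_le
  intro d hd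
  refine (totalDegree_mul _ _).trans ?_
  rw [algebraMap_eq, totalDegree_C, zero_add]
  refine (totalDegree_finsetProd _ _).trans ?_
  refine le_trans ?_ (le_totalDegree hd)
  rw [Finsupp.sum]
  apply Finset.sum_le_sum
  intro i _
  refine (totalDegree_pow _ _).trans ?_
  have : (Sum.elim (fun a => psi (f.flag a)) (fun v => ∑ w with f.vert w = v, kappa w) i :
      Dec Δ).totalDegree ≤ 1 := by
    rcases i with a | v
    · exact psi_degree _
    · exact totalDegree_finsetSum_le (fun w _ => kappa_degree w)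
  calc _ ≤ d i * 1 := Nat.mul_le_mul_left _ this
    _ = d i := mul_one _

theorem prod_normal_degree_le {Δ Γ : PTree n} (f : Contraction Δ Γ) :
    (∏ e : Γ.Edge, normal (f.edge e)).totalDegree ≤ Γ.nE := by
  refine (totalDegree_finsetProd _ _).trans ?_
  refine (Finset.sum_le_sum (fun e _ => normal_degree _)).trans ?_
  simp

theorem push_bdd {Γ : PTree n} {β : ∀ Δ : PTree n, Contraction Δ Γ → Dec Δ} (h : BddOver Γ β) :
    Bdd (push Γ β) := by
  obtain ⟨d, hd⟩ := h
  refine ⟨d + Γ.nE, fun Δ => ?_⟩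
  apply totalDegree_finsetSum_le
  intro f _
  exact (totalDegree_mul _ _).trans (add_le_add (hd Δ f) (prod_normal_degree_le f))

theorem stratum_degree {Γ : PTree n} (α : Dec Γ) (Δ : PTree n) :
    (stratum Γ α Δ).totalDegree ≤ α.totalDegree + Γ.nE := by
  apply totalDegree_finsetSum_le
  intro f _
  exact (totalDegree_mul _ _).trans (add_le_add (pull_degree f α) (prod_normal_degree_le f))

theorem bddOver_pull {Γ : PTree n} (α : Dec Γ) : BddOver Γ (fun _ f => f.pull α) :=
  ⟨α.totalDegree, fun _ f => pull_degree f α⟩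

theorem BddOver.mul {Γ : PTree n} {β β' : ∀ Δ : PTree n, Contraction Δ Γ → Dec Δ}
    (h : BddOver Γ β) (h' : BddOver Γ β') : BddOver Γ (fun Δ f => β Δ f * β' Δ f) := by
  obtain ⟨d, hd⟩ := h
  obtain ⟨d', hd'⟩ := h'
  exact ⟨d + d', fun Δ f => (totalDegree_mul _ _).trans (add_le_add (hd Δ f) (hd' Δ f))⟩

theorem normal_ne_zero {Γ : PTree n} (e : Γ.Edge) : (normal e : Dec Γ) ≠ 0 := by
  classical
  intro h
  have h1 := congrArg (eval (fun i => if i = Sum.inl (Sum.inl (e, false)) then (1 : ℚ) else 0)) h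
  simp [normal, psi] at h1

theorem normal_prime {Γ : PTree n} (e : Γ.Edge) : Prime (normal e : Dec Γ) := by
  classical
  rw [← irreducible_iff_prime]
  apply irreducible_of_totalDegree_eq_one
  · exact (normal_isHomogeneous e).totalDegree (normal_ne_zero e)
  · intro x hx
    have h1 := hx (Finsupp.single (Sum.inl (Sum.inl (e, false))) 1)
    rcases eq_or_ne x 0 with rfl | h
    · rw [zero_dvd_iff] at h1
      simp [normal, psi, coeff_X, Finsupp.single_left_inj] at h1
    · exact isUnit_iff_ne_zero.mpr h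

theorem normal_not_dvd {Γ : PTree n} {e e' : Γ.Edge} (h : e ≠ e') :
    ¬ (normal e : Dec Γ) ∣ normal e' := by
  classical
  rintro ⟨c, hc⟩
  have h1 := congrArg
    (eval (fun i => if i = Sum.inl (Sum.inl (e', false)) then (1 : ℚ) else 0)) hc
  have h2 : ¬ (e = e') := h
  simp [normal, psi, h2] at h1

theorem prod_normal_dvd {Γ : PTree n} (p : Dec Γ) (h : ∀ e : Γ.Edge, normal e ∣ p)
    (s : Finset Γ.Edge) : ∏ e ∈ s, normal e ∣ p := by
  classical
  induction s using Finset.induction_on with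
  | empty => simp
  | insert e s he ih =>
    rw [Finset.prod_insert he]
    obtain ⟨q, hq⟩ := ih
    have h1 := h e
    rw [hq] at h1
    rcases (normal_prime e).dvd_or_dvd h1 with h2 | h2
    · rw [Prime.dvd_finsetProd_iff (normal_prime e)] at h2
      obtain ⟨e', he', h3⟩ := h2
      exact absurd h3 (normal_not_dvd (fun h4 => he (h4 ▸ he')))
    · obtain ⟨r, hr⟩ := h2
      exact ⟨r, by rw [hq, hr]; ring⟩

theorem prod_normal_degree (Γ : PTree n) (s : Finset Γ.Edge) :
    (∏ e ∈ s, (normal e : Dec Γ)).totalDegree = s.card := by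
  have h1 : (∏ e ∈ s, (normal e : Dec Γ)).IsHomogeneous (∑ _e ∈ s, 1) :=
    IsHomogeneous.prod _ _ _ (fun e _ => normal_isHomogeneous e)
  rw [h1.totalDegree (Finset.prod_ne_zero_iff.mpr (fun e _ => normal_ne_zero e))]
  simp

end Degree

/-- the value of a compatible family at `Γ` is divisible by all the normal classes, if the family
vanishes at all trees with fewer edges -/
theorem Compat.exists_quotient {x : ∀ Δ : PTree n, Dec Δ} (hx : Compat x) (Γ : PTree n)
    (h : ∀ Δ : PTree n, Δ.nE < Γ.nE → x Δ = 0) :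
    ∃ α : Dec Γ, x Γ = α * ∏ e : Γ.Edge, normal e := by
  obtain ⟨α, hα⟩ := prod_normal_dvd (x Γ) (by
    intro e
    obtain ⟨Δ, g, h1, h2⟩ := exists_contract Γ e
    have h3 := hx _ _ g
    rw [h Δ (by omega), map_zero, sub_zero, Contraction.cIdeal, h2, Set.image_singleton,
      Ideal.mem_span_singleton] at h3
    exact h3) Finset.univ
  exact ⟨α, by rw [hα, mul_comm]⟩

/-- the trees with `k` edges -/
abbrev TreeWith (n k : ℕ) : Type := {Γ : PTree n // Γ.nE = k}

instance (n k : ℕ) : Finite (TreeWith n k) := by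
  let F : TreeWith n k → (Fin k × Bool → Fin (k + 1)) × (Fin n → Fin (k + 1)) := fun Γ =>
    ((fun h => Fin.cast (by rw [Γ.2]) (Γ.1.ends (Fin.cast Γ.2.symm h.1, h.2))),
      fun i => Fin.cast (by rw [Γ.2]) (Γ.1.leg i))
  apply Finite.of_injective F
  rintro ⟨⟨m, ends, leg, conn⟩, h⟩ ⟨⟨m', ends', leg', conn'⟩, h'⟩ hF
  simp only at h h'
  subst h
  subst h'
  have h1 : ends = ends' := congrArg Prod.fst hF
  have h2 : leg = leg' := congrArg Prod.snd hF
  subst h1
  subst h2
  rfl

noncomputable instance (n k : ℕ) : Fintype (TreeWith n k) := Fintype.ofFinite _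

/-- the number of pairs of a tree with `k` edges and a structure for it on `Δ` -/
noncomputable def count (k : ℕ) (Δ : PTree n) : ℕ :=
  Nat.card (Σ Γ : TreeWith n k, Contraction Δ Γ.1)

theorem count_pos {k : ℕ} {Δ : PTree n} (h : Δ.nE = k) : 0 < count k Δ := by
  have : Nonempty (Σ Γ : TreeWith n k, Contraction Δ Γ.1) := ⟨⟨⟨Δ, h⟩, Contraction.id Δ⟩⟩
  exact Nat.card_pos

theorem count_eq {k : ℕ} {Δ Γ : PTree n} (f : Contraction Δ Γ) (h : Δ.nE ≤ Γ.nE) :
    count k Δ = count k Γ := by
  symm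
  apply Nat.card_congr
  refine Equiv.ofBijective (fun p => ⟨p.1, f.comp p.2⟩) ⟨?_, ?_⟩
  · rintro ⟨Γ1, f1⟩ ⟨Γ2, f2⟩ h12
    simp only [Sigma.mk.injEq] at h12
    obtain ⟨h1, h2⟩ := h12
    subst h1
    rw [heq_eq_eq] at h2
    rw [f.comp_left_injective h2]
  · rintro ⟨Γ1, f1⟩
    obtain ⟨f', hf'⟩ := f.exists_factor f1 (fun x => f.half_surjective h _)
    exact ⟨⟨Γ1, f'⟩, by simp only [hf']⟩

theorem stratum_eq_zero {Γ Δ : PTree n} (h : Δ.nE < Γ.nE) (α : Dec Γ) : stratum Γ α Δ = 0 := by
  have : IsEmpty (Contraction Δ Γ) := ⟨fun f => absurd f.card_le (by omega)⟩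
  simp [stratum, push]

theorem push_eq_zero {Γ Δ : PTree n} (h : Δ.nE < Γ.nE)
    (β : ∀ Δ : PTree n, Contraction Δ Γ → Dec Δ) : push Γ β Δ = 0 := by
  have : IsEmpty (Contraction Δ Γ) := ⟨fun f => absurd f.card_le (by omega)⟩
  simp [push]

theorem stratum_add {Γ : PTree n} (α β : Dec Γ) :
    stratum Γ (α + β) = stratum Γ α + stratum Γ β := by
  funext Δ
  simp [stratum, push, add_mul, Finset.sum_add_distrib]

theorem stratum_smul {Γ : PTree n} (c : ℚ) (α : Dec Γ) :
    stratum Γ (c • α) = c • stratum Γ α := by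
  funext Δ
  simp [stratum, push, Finset.smul_sum]

theorem stratum_sub {Γ : PTree n} (α β : Dec Γ) :
    stratum Γ (α - β) = stratum Γ α - stratum Γ β := by
  funext Δ
  simp [stratum, push, sub_mul, Finset.sum_sub_distrib]

theorem stratum_zero {Γ : PTree n} : stratum Γ (0 : Dec Γ) = 0 := by
  funext Δ
  simp [stratum, push]

theorem stratum_compat {Γ : PTree n} (α : Dec Γ) : Compat (stratum Γ α) :=
  push_compat (compatOver_pull α)

/-- subtracting the leading terms of a compatible family -/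
theorem Compat.peel {x : ∀ Δ : PTree n, Dec Δ} (hx : Compat x) (k : ℕ)
    (hk : ∀ Δ : PTree n, Δ.nE < k → x Δ = 0) (α : ∀ Γ : TreeWith n k, Dec Γ.1)
    (hα : ∀ Γ : TreeWith n k, x Γ.1 = α Γ * ∏ e : Γ.1.Edge, normal e) (Δ : PTree n)
    (hΔ : Δ.nE < k + 1) :
    (x - ∑ Γ : TreeWith n k, stratum Γ.1 (((count k Γ.1 : ℚ))⁻¹ • α Γ)) Δ = 0 := by
  rcases Nat.lt_succ_iff_lt_or_eq.mp hΔ with h | h
  · simp only [Pi.sub_apply, Finset.sum_apply, hk Δ h, zero_sub, neg_eq_zero]
    apply Finset.sum_eq_zero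
    intro Γ _
    exact stratum_eq_zero (by rw [Γ.2]; exact h) _
  · simp only [Pi.sub_apply, Finset.sum_apply]
    have h1 : ∀ Γ : TreeWith n k, stratum Γ.1 (((count k Γ.1 : ℚ))⁻¹ • α Γ) Δ =
        ∑ _f : Contraction Δ Γ.1, ((count k Δ : ℚ))⁻¹ • x Δ := by
      intro Γ
      unfold stratum push
      apply Finset.sum_congr rfl
      intro f _
      have hle : Δ.nE ≤ Γ.1.nE := by rw [Γ.2, h]
      have h2 : x Δ = f.pull (x Γ.1) := hx.eq_pull f hle
      show f.pull (((count k Γ.1 : ℚ))⁻¹ • α Γ) * _ = _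
      rw [h2, hα Γ, map_mul, map_prod, map_smul, count_eq f hle, smul_mul_assoc]
      simp only [Contraction.pull_normal]
    simp only [h1]
    simp only [Finset.sum_const, Finset.card_univ]
    have h3 : ∑ Γ : TreeWith n k, Fintype.card (Contraction Δ Γ.1) = count k Δ := by
      rw [count, Nat.card_eq_fintype_card, Fintype.card_sigma]
    rw [← Finset.sum_smul, h3, ← Nat.cast_smul_eq_nsmul ℚ, smul_smul,
      mul_inv_cancel₀ (by exact_mod_cast (count_pos h).ne'), one_smul, sub_self]

/-- compatible families of bounded degree are combinations of decorated strata classes -/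
theorem Compat.mem_span {x : ∀ Δ : PTree n, Dec Δ} (hx : Compat x) {d : ℕ}
    (hd : ∀ Δ, (x Δ).totalDegree ≤ d) (k : ℕ) (hk : ∀ Δ : PTree n, Δ.nE < k → x Δ = 0) :
    x ∈ Submodule.span ℚ {y : ∀ Δ : PTree n, Dec Δ | ∃ (Γ : PTree n) (α : Dec Γ),
      k ≤ Γ.nE ∧ y = stratum Γ α} := by
  classical
  -- induction on `d + 1 - k`
  induction hm : d + 1 - k generalizing k x with
  | zero =>
    have : x = 0 := by
      funext Δ
      induction hN : Δ.nE using Nat.strong_induction_on generalizing Δ with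
      | _ N ih =>
        by_cases hlt : Δ.nE < k
        · exact hk Δ hlt
        · obtain ⟨α, hα⟩ := hx.exists_quotient Δ (fun Δ' h' => ih _ (hN ▸ h') Δ' rfl)
          by_contra hne
          have hα0 : α ≠ 0 := by
            rintro rfl
            apply hne
            rw [hα, zero_mul]
            rfl
          have h1 := hd Δ
          rw [hα, totalDegree_mul_of_isDomain hα0
            (Finset.prod_ne_zero_iff.mpr (fun e _ => normal_ne_zero e)), prod_normal_degree] at h1
          simp only [Finset.card_univ, Fintype.card_fin] at h1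
          omega
    rw [this]
    exact Submodule.zero_mem _
  | succ m ih =>
    have hex : ∀ Γ : TreeWith n k, ∃ α : Dec Γ.1, x Γ.1 = α * ∏ e : Γ.1.Edge, normal e :=
      fun Γ => hx.exists_quotient Γ.1 (fun Δ h => hk Δ (by rw [Γ.2] at h; exact h))
    choose α hα using hex
    have hαd : ∀ Γ : TreeWith n k, (α Γ).totalDegree + Γ.1.nE ≤ d := by
      intro Γ
      rcases eq_or_ne (α Γ) 0 with h0 | h0
      · rw [h0, totalDegree_zero, Γ.2]
        omega
      · have h1 := hd Γ.1
        rw [hα, totalDegree_mul_of_isDomain h0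
          (Finset.prod_ne_zero_iff.mpr (fun e _ => normal_ne_zero e)), prod_normal_degree] at h1
        simpa using h1
    set y : ∀ Δ : PTree n, Dec Δ :=
      ∑ Γ : TreeWith n k, stratum Γ.1 (((count k Γ.1 : ℚ))⁻¹ • α Γ) with hy
    have hyc : Compat (x - y) := by
      intro Δ' Δ g
      have h1 := hx _ _ g
      have h2 : y Δ' - g.pull (y Δ) ∈ g.cIdeal := by
        rw [hy, Finset.sum_apply, Finset.sum_apply, map_sum, ← Finset.sum_sub_distrib]
        exact Ideal.sum_mem _ (fun Γ _ => stratum_compat _ _ _ g)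
      have h3 := g.cIdeal.sub_mem h1 h2
      simp only [Pi.sub_apply, map_sub]
      convert h3 using 1
      ring
    have hyd : ∀ Δ, ((x - y) Δ).totalDegree ≤ d := by
      intro Δ
      refine (totalDegree_sub _ _).trans (max_le (hd Δ) ?_)
      rw [hy, Finset.sum_apply]
      apply totalDegree_finsetSum_le
      intro Γ _
      refine (stratum_degree _ _).trans ?_
      exact (add_le_add_left (totalDegree_smul_le _ _) _).trans (hαd Γ)
    have h1 := ih hyc hyd (k + 1) (fun Δ hΔ => hx.peel k hk α hα Δ hΔ) (by omega)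
    have h2 : y ∈ Submodule.span ℚ {y : ∀ Δ : PTree n, Dec Δ | ∃ (Γ : PTree n) (α : Dec Γ),
        k ≤ Γ.nE ∧ y = stratum Γ α} := by
      rw [hy]
      apply Submodule.sum_mem
      intro Γ _
      exact Submodule.subset_span ⟨Γ.1, _, Γ.2.ge, rfl⟩
    have h3 : Submodule.span ℚ {y : ∀ Δ : PTree n, Dec Δ | ∃ (Γ : PTree n) (α : Dec Γ),
        k + 1 ≤ Γ.nE ∧ y = stratum Γ α} ≤
        Submodule.span ℚ {y : ∀ Δ : PTree n, Dec Δ | ∃ (Γ : PTree n) (α : Dec Γ),
        k ≤ Γ.nE ∧ y = stratum Γ α} := by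
      apply Submodule.span_mono
      rintro _ ⟨Γ, α, h, rfl⟩
      exact ⟨Γ, α, by omega, rfl⟩
    have := Submodule.add_mem _ (h3 h1) h2
    rwa [sub_add_cancel] at this

theorem Compat.add {x y : ∀ Δ : PTree n, Dec Δ} (hx : Compat x) (hy : Compat y) :
    Compat (x + y) := by
  intro Δ' Δ g
  have h3 := g.cIdeal.add_mem (hx _ _ g) (hy _ _ g)
  simp only [Pi.add_apply, map_add]
  convert h3 using 1
  ring

theorem Compat.mul {x y : ∀ Δ : PTree n, Dec Δ} (hx : Compat x) (hy : Compat y) :
    Compat (x * y) := by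
  intro Δ' Δ g
  simp only [Pi.mul_apply, map_mul]
  exact mul_sub_mul_mem (hx _ _ g) (hy _ _ g)

/-- the strata algebra consists of compatible families -/
theorem compat_of_mem {x : ∀ Δ : PTree n, Dec Δ} (hx : x ∈ StrataAlgebra n) : Compat x := by
  induction hx using Algebra.adjoin_induction with
  | mem x hx =>
    obtain ⟨Γ, α, rfl⟩ := hx
    exact stratum_compat α
  | algebraMap r =>
    intro Δ' Δ g
    have : g.pull (algebraMap ℚ (Dec Δ) r) = algebraMap ℚ (Dec Δ') r := g.pull.commutes r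
    rw [Pi.algebraMap_apply, Pi.algebraMap_apply, this, sub_self]
    exact Ideal.zero_mem _
  | add x y _ _ hx hy => exact hx.add hy
  | mul x y _ _ hx hy => exact hx.mul hy

/-- compatible families of bounded degree belong to the strata algebra -/
theorem mem_strataAlgebra {x : ∀ Δ : PTree n, Dec Δ} (hx : Compat x) (hb : Bdd x) :
    x ∈ StrataAlgebra n := by
  obtain ⟨d, hd⟩ := hb
  have h := hx.mem_span hd 0 (fun Δ h => absurd h (by omega))
  have : Submodule.span ℚ {y : ∀ Δ : PTree n, Dec Δ | ∃ (Γ : PTree n) (α : Dec Γ),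
      0 ≤ Γ.nE ∧ y = stratum Γ α} ≤ Subalgebra.toSubmodule (StrataAlgebra n) := by
    rw [Submodule.span_le]
    rintro _ ⟨Γ, α, _, rfl⟩
    exact Algebra.subset_adjoin ⟨Γ, α, rfl⟩
  exact this h

theorem bdd_of_mem {x : ∀ Δ : PTree n, Dec Δ} (hx : x ∈ StrataAlgebra n) : Bdd x := by
  induction hx using Algebra.adjoin_induction with
  | mem x hx =>
    obtain ⟨Γ, α, rfl⟩ := hx
    exact ⟨_, stratum_degree α⟩
  | algebraMap r =>
    refine ⟨0, fun Δ => ?_⟩
    rw [Pi.algebraMap_apply, algebraMap_eq, totalDegree_C]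
  | add x y _ _ hx hy =>
    obtain ⟨d, hd⟩ := hx
    obtain ⟨d', hd'⟩ := hy
    exact ⟨max d d', fun Δ => (totalDegree_add _ _).trans (max_le_max (hd Δ) (hd' Δ))⟩
  | mul x y _ _ hx hy =>
    obtain ⟨d, hd⟩ := hx
    obtain ⟨d', hd'⟩ := hy
    exact ⟨d + d', fun Δ => (totalDegree_mul _ _).trans (add_le_add (hd Δ) (hd' Δ))⟩

/-- the product of two decorated strata classes is a combination of such classes -/
theorem strataAlgebra_eq_span (n : ℕ) : Subalgebra.toSubmodule (StrataAlgebra n) =
    Submodule.span ℚ {y : ∀ Δ : PTree n, Dec Δ | ∃ (Γ : PTree n) (α : Dec Γ),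
      y = stratum Γ α} := by
  apply le_antisymm
  · intro x hx
    obtain ⟨d, hd⟩ := bdd_of_mem hx
    have h := (compat_of_mem hx).mem_span hd 0 (fun Δ h => absurd h (by omega))
    refine Submodule.span_mono ?_ h
    rintro _ ⟨Γ, α, _, rfl⟩
    exact ⟨Γ, α, rfl⟩
  · rw [Submodule.span_le]
    rintro _ ⟨Γ, α, rfl⟩
    exact Algebra.subset_adjoin ⟨Γ, α, rfl⟩

end Pool.Agent.PrestableChow
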