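import Mathlib
import Pool.Agent.Lib_MP_ce8637_ag.Family

/-!
The basic relations are compatible families; their leading terms.
-/

set_option autoImplicit false

open MvPolynomial

namespace Pool.Agent.PrestableChow

variable {n : ℕ}

section Sep

variable {Δ' Δ Γ : PTree n}

theorem separates_edge_iff (g : Contraction Δ' Δ) (e : Δ.Edge) (v w : Δ'.Vert) :
    Separates Δ' (g.edge e) v w ↔ Separates Δ e (g.vert v) (g.vert w) := by
  unfold Separates
  rw [g.joined_lift (P := {e' | e' ≠ e}) (P' := {e' | e' ≠ g.edge e})]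
  intro e'
  constructor
  · intro h
    by_cases hc : e' ∈ g.contracted
    · exact Or.inl hc
    · right
      obtain ⟨e1, rfl⟩ := Contraction.not_mem_contracted hc
      refine ⟨e1, ?_, rfl⟩
      rintro rfl
      exact h rfl
  · rintro (hc | ⟨e1, he1, rfl⟩)
    · rintro rfl
      exact g.edge_not_mem_contracted e hc
    · intro h
      exact he1 (g.edge_injective h)

theorem not_separates_self (Γ : PTree n) (e : Γ.Edge) (v : Γ.Vert) : ¬ Separates Γ e v v :=
  fun h => h (Joined.refl _ _ _)

theorem sepClass_self (Γ : PTree n) (v : Γ.Vert) : sepClass Γ v v = 0 := by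
  classical
  unfold sepClass
  apply Finset.sum_eq_zero
  intro e he
  rw [Finset.mem_filter] at he
  exact absurd he.2 (not_separates_self Γ e v)

theorem sum_edge_sub_mem (g : Contraction Δ' Δ) (F : Δ'.Edge → Dec Δ')
    (hF : ∀ e' ∈ g.contracted, F e' ∈ g.cIdeal) :
    ∑ e', F e' - ∑ e, F (g.edge e) ∈ g.cIdeal := by
  classical
  let S : Finset Δ'.Edge := Finset.univ.image g.edge
  have h1 : ∑ e', F e' = ∑ e, F (g.edge e) + ∑ e' ∈ Sᶜ, F e' := by
    rw [← Finset.sum_add_sum_compl S]
    congr 1
    rw [Finset.sum_image]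
    intro x _ y _ h
    exact g.edge_injective h
  rw [h1, add_sub_cancel_left]
  apply Ideal.sum_mem
  intro e' he'
  apply hF
  rw [Contraction.mem_contracted_iff]
  intro e he
  rw [Finset.mem_compl] at he'
  exact he' (Finset.mem_image.mpr ⟨e, Finset.mem_univ _, he⟩)

theorem sepClass_compat (g : Contraction Δ' Δ) (v w : Δ'.Vert) :
    sepClass Δ' v w - g.pull (sepClass Δ (g.vert v) (g.vert w)) ∈ g.cIdeal := by
  classical
  have h := sum_edge_sub_mem g (fun e' => if Separates Δ' e' v w then normal e' else 0) (by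
    intro e' he'
    split_ifs
    · exact g.normal_mem_cIdeal he'
    · exact Ideal.zero_mem _)
  have h1 : sepClass Δ' v w = ∑ e', if Separates Δ' e' v w then normal e' else 0 := by
    unfold sepClass
    rw [Finset.sum_filter]
  have h2 : g.pull (sepClass Δ (g.vert v) (g.vert w)) =
      ∑ e, if Separates Δ' (g.edge e) v w then normal (g.edge e) else 0 := by
    unfold sepClass
    rw [Finset.sum_filter, map_sum]
    apply Finset.sum_congr rfl
    intro e _
    by_cases hs : Separates Δ e (g.vert v) (g.vert w)
    · rw [if_pos hs, if_pos ((separates_edge_iff g e v w).mpr hs), Contraction.pull_normal]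
    · rw [if_neg hs, if_neg (fun h => hs ((separates_edge_iff g e v w).mp h)), map_zero]
  rw [h1, h2]
  exact h

theorem sum_flag_sub_mem (g : Contraction Δ' Δ) (w : Δ.Vert) (F : Δ'.Flag → Dec Δ')
    (hF : ∀ e' ∈ g.contracted, F (Sum.inl (e', false)) + F (Sum.inl (e', true)) ∈ g.cIdeal) :
    ∑ a with g.vert (Δ'.base a) = w, F a - ∑ a with Δ.base a = w, F (g.flag a) ∈ g.cIdeal := by
  classical
  rw [Finset.sum_filter, Finset.sum_filter]
  rw [Fintype.sum_sum_type, Fintype.sum_sum_type]
  -- the legs contribute equally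
  have hleg : ∑ i : Fin n, (if g.vert (Δ'.base (Sum.inr i)) = w then F (Sum.inr i) else 0) =
      ∑ i : Fin n, (if Δ.base (Sum.inr i) = w then F (g.flag (Sum.inr i)) else 0) := by
    apply Finset.sum_congr rfl
    intro i _
    have h1 : g.vert (Δ'.base (Sum.inr i)) = Δ.base (Sum.inr i) := g.vert_leg i
    rw [h1]
    rfl
  rw [hleg, add_sub_add_right_eq_sub]
  set G : Δ'.Half → Dec Δ' := fun h => if g.vert (Δ'.base (Sum.inl h)) = w then F (Sum.inl h) else 0
    with hG
  have h1 := sum_edge_sub_mem g (fun e' => G (e', false) + G (e', true)) (by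
    intro e' he'
    simp only [hG]
    have h2 : g.vert (Δ'.base (Sum.inl (e', false))) = g.vert (Δ'.base (Sum.inl (e', true))) :=
      g.vert_ends_contracted he' false true
    rw [h2]
    split_ifs
    · exact hF e' he'
    · rw [add_zero]
      exact Ideal.zero_mem _)
  have h2 : ∑ h : Δ'.Half, G h = ∑ e', (G (e', false) + G (e', true)) := by
    rw [Fintype.sum_prod_type]
    apply Finset.sum_congr rfl
    intro e _
    rw [Fintype.sum_bool, add_comm]
  have h3 : ∑ h : Δ.Half, (if Δ.base (Sum.inl h) = w then F (g.flag (Sum.inl h)) else 0) =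
      ∑ e, (G (g.edge e, false) + G (g.edge e, true)) := by
    rw [Fintype.sum_prod_type]
    apply Finset.sum_congr rfl
    intro e _
    rw [Fintype.sum_bool]
    have key : ∀ h : Δ.Half, (if Δ.base (Sum.inl h) = w then F (g.flag (Sum.inl h)) else 0) =
        G (g.half h) := by
      intro h
      simp only [hG]
      have h4 : g.vert (Δ'.base (Sum.inl (g.half h))) = Δ.base (Sum.inl h) := g.vert_ends h
      rw [h4]
      rfl
    rw [key, key]
    have h5 : g.half (e, false) = (g.edge e, (g.half (e, false)).2) := rfl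
    have h6 : g.half (e, true) = (g.edge e, !(g.half (e, false)).2) := by
      have : ((e, true) : Δ.Half) = flip (e, false) := rfl
      rw [this, g.half_flip]
      rfl
    rw [h5, h6]
    cases (g.half (e, false)).2
    · rw [Bool.not_false, add_comm]
    · rw [Bool.not_true]
  have h7 : ∑ x : Δ'.Half, (if g.vert (Δ'.base (Sum.inl x)) = w then F (Sum.inl x) else 0) =
      ∑ h : Δ'.Half, G h := rfl
  rw [h7, h2, h3]
  exact h1

end Sep

section Kappa

variable {Δ' Δ Γ : PTree n}

theorem towards_flag_iff (g : Contraction Δ' Δ) (r a : Δ.Flag) :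
    Towards Δ' (g.flag r) (g.flag a) ↔ Towards Δ r a := by
  unfold Towards
  constructor
  · rintro (h | ⟨h', h1, h2⟩)
    · exact Or.inl (g.flag_injective h)
    · right
      rcases a with h | i
      · refine ⟨h, rfl, ?_⟩
        have h3 : g.half h = h' := Sum.inl.inj h1
        subst h3
        rw [Contraction.half_fst, separates_edge_iff, g.vert_ends, g.vert_base] at h2
        exact h2
      · cases h1
  · rintro (h | ⟨h, rfl, h2⟩)
    · exact Or.inl (congrArg _ h)
    · right
      refine ⟨g.half h, rfl, ?_⟩
      rw [Contraction.half_fst, separates_edge_iff, g.vert_ends, g.vert_base]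
      exact h2

theorem sgn_flag (g : Contraction Δ' Δ) (r a : Δ.Flag) :
    sgn Δ' (g.flag r) (g.flag a) = g.pull (sgn Δ r a) := by
  classical
  unfold sgn
  by_cases h : Towards Δ r a
  · rw [if_pos h, if_pos ((towards_flag_iff g r a).mpr h), map_neg, map_one]
  · rw [if_neg h, if_neg (fun h' => h ((towards_flag_iff g r a).mp h')), map_one]

theorem towards_contracted (g : Contraction Δ' Δ) (r : Δ.Flag) {e : Δ'.Edge}
    (he : e ∈ g.contracted) (b : Bool) : Towards Δ' (g.flag r) (Sum.inl (e, b)) ↔
      Separates Δ' e (Δ'.ends (e, b)) (Δ'.base (g.flag r)) := by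
  unfold Towards
  constructor
  · rintro (h | ⟨h', h1, h2⟩)
    · exfalso
      rcases r with x | i
      · have : g.half x = (e, b) := (Sum.inl.inj h).symm
        exact he x (by rw [this])
      · cases h
    · have : (e, b) = h' := Sum.inl.inj h1
      subst this
      exact h2
  · intro h
    exact Or.inr ⟨(e, b), rfl, h⟩

theorem sgn_contracted (g : Contraction Δ' Δ) (r : Δ.Flag) {e : Δ'.Edge}
    (he : e ∈ g.contracted) :
    sgn Δ' (g.flag r) (Sum.inl (e, true)) = - sgn Δ' (g.flag r) (Sum.inl (e, false)) := by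
  classical
  unfold sgn
  have h1 := towards_contracted g r he true
  have h2 := towards_contracted g r he false
  have h3 := separates_flip e true (Δ'.base (g.flag r))
  rw [Bool.not_true] at h3
  by_cases h : Towards Δ' (g.flag r) (Sum.inl (e, true))
  · have h4 : ¬ Towards Δ' (g.flag r) (Sum.inl (e, false)) := by
      rw [h2]
      exact h3.mp (h1.mp h)
    rw [if_pos h, if_neg h4]
  · have h4 : Towards Δ' (g.flag r) (Sum.inl (e, false)) := by
      rw [h2]
      by_contra hcon
      exact h (h1.mpr (h3.mpr hcon))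
    rw [if_neg h, if_pos h4, neg_neg]

theorem sum_fiber_flags (g : Contraction Δ' Δ) (w : Δ.Vert) (F : Δ'.Flag → Dec Δ') :
    ∑ w' with g.vert w' = w, ∑ a with Δ'.base a = w', F a =
      ∑ a with g.vert (Δ'.base a) = w, F a := by
  classical
  rw [← Finset.sum_fiberwise_of_maps_to (s := Finset.univ.filter fun a => g.vert (Δ'.base a) = w)
    (t := Finset.univ.filter fun w' => g.vert w' = w) (g := Δ'.base) (fun a ha => by simpa using ha)]
  apply Finset.sum_congr rfl
  intro w' hw'
  apply Finset.sum_congr _ (fun _ _ => rfl)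
  ext a
  simp only [Finset.mem_filter, Finset.mem_univ, true_and] at hw' ⊢
  constructor
  · intro h
    exact ⟨by rw [h]; exact hw', h⟩
  · rintro ⟨_, h⟩
    exact h

theorem kappaAt_compat (g : Contraction Δ' Δ) (r : Δ.Flag) (w : Δ.Vert) :
    ∑ w' with g.vert w' = w, kappaAt Δ' (g.flag r) w' - g.pull (kappaAt Δ r w) ∈ g.cIdeal := by
  classical
  have h1 := sum_flag_sub_mem g w (fun a => sgn Δ' (g.flag r) a * psi a ^ 2) (by
    intro e' he'
    rw [sgn_contracted g r he']
    have h2 := g.normal_mem_cIdeal he'
    unfold normal at h2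
    have h3 := g.cIdeal.mul_mem_left
      (-(sgn Δ' (g.flag r) (Sum.inl (e', false)) *
        (psi (Sum.inl (e', false)) - psi (Sum.inl (e', true))))) h2
    convert h3 using 1
    ring)
  unfold kappaAt
  rw [sum_fiber_flags, map_sum]
  simp only [map_mul, map_pow, Contraction.pull_psi, ← sgn_flag]
  exact h1

end Kappa

section CompatRelations

variable {Γ : PTree n}

theorem psiRelation_compat (a b : Γ.Flag) : CompatOver Γ (psiRelation a b) := by
  intro Δ' Δ g f
  unfold psiRelation
  rw [map_sub, map_add, Contraction.pull_psi, Contraction.pull_psi, Contraction.comp_flag,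
    Contraction.comp_flag]
  have h := sepClass_compat g (Δ'.base (g.flag (f.flag a))) (Δ'.base (g.flag (f.flag b)))
  rw [g.vert_base, g.vert_base] at h
  have h1 := (Ideal.neg_mem_iff _).mpr h
  convert h1 using 1
  ring

theorem kappaRelation_compat (r : Γ.Flag) : CompatOver Γ (kappaRelation r) := by
  classical
  intro Δ' Δ g f
  unfold kappaRelation
  have h1 : ∑ w with (g.comp f).vert w = Γ.base r,
      (kappa w - kappaAt Δ' ((g.comp f).flag r) w) =
      ∑ w with f.vert w = Γ.base r, ∑ w' with g.vert w' = w,
        (kappa w' - kappaAt Δ' (g.flag (f.flag r)) w') := by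
    rw [Contraction.comp_flag]
    show ∑ w with f.vert (g.vert w) = Γ.base r, _ = _
    rw [← Finset.sum_fiberwise_of_maps_to
      (s := Finset.univ.filter fun w => f.vert (g.vert w) = Γ.base r)
      (t := Finset.univ.filter fun w => f.vert w = Γ.base r) (g := g.vert)
      (fun w hw => by simpa using hw)]
    apply Finset.sum_congr rfl
    intro w hw
    apply Finset.sum_congr _ (fun _ _ => rfl)
    ext w'
    simp only [Finset.mem_filter, Finset.mem_univ, true_and] at hw ⊢
    constructor
    · rintro ⟨_, h⟩
      exact h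
    · rintro rfl
      exact ⟨hw, rfl⟩
  rw [h1, map_sum, ← Finset.sum_sub_distrib]
  apply Ideal.sum_mem
  intro w _
  rw [Finset.sum_sub_distrib, map_sub, Contraction.pull_kappa]
  have h2 := (Ideal.neg_mem_iff _).mpr (kappaAt_compat g (f.flag r) w)
  convert h2 using 1
  ring

theorem sepClass_degree (Γ : PTree n) (v w : Γ.Vert) : (sepClass Γ v w).totalDegree ≤ 1 :=
  totalDegree_finsetSum_le (fun e _ => normal_degree e)

theorem sgn_degree (Γ : PTree n) (r a : Γ.Flag) : (sgn Γ r a).totalDegree ≤ 0 := by
  classical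
  unfold sgn
  split_ifs
  · rw [totalDegree_neg, totalDegree_one]
  · rw [totalDegree_one]

theorem kappaAt_degree (Γ : PTree n) (r : Γ.Flag) (w : Γ.Vert) :
    (kappaAt Γ r w).totalDegree ≤ 2 := by
  classical
  unfold kappaAt
  apply totalDegree_finsetSum_le
  intro a _
  refine (totalDegree_mul _ _).trans ?_
  have e1 := sgn_degree Γ r a
  have e2 : (psi a ^ 2).totalDegree ≤ 2 * 1 :=
    (totalDegree_pow _ _).trans (Nat.mul_le_mul_left _ (psi_degree a))
  omega

theorem psiRelation_bdd (a b : Γ.Flag) : BddOver Γ (psiRelation a b) := by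
  refine ⟨1, fun Δ f => ?_⟩
  unfold psiRelation
  refine (totalDegree_sub _ _).trans (max_le ?_ (sepClass_degree _ _ _))
  exact (totalDegree_add _ _).trans (max_le (psi_degree _) (psi_degree _))

theorem kappaRelation_bdd (r : Γ.Flag) : BddOver Γ (kappaRelation r) := by
  classical
  refine ⟨2, fun Δ f => ?_⟩
  unfold kappaRelation
  apply totalDegree_finsetSum_le
  intro w _
  exact (totalDegree_sub _ _).trans
    (max_le ((kappa_degree _).trans (by omega)) (kappaAt_degree _ _ _))

/-- push-forwards of compatible classes of bounded degree belong to the strata algebra -/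
theorem push_mem {β : ∀ Δ : PTree n, Contraction Δ Γ → Dec Δ} (h : CompatOver Γ β)
    (h' : BddOver Γ β) (α : Dec Γ) :
    push Γ (fun Δ f => β Δ f * f.pull α) ∈ StrataAlgebra n :=
  mem_strataAlgebra (push_compat (h.mul (compatOver_pull α))) (push_bdd (h'.mul (bddOver_pull α)))

/-- the leading term of a push-forward -/
theorem push_leading {β : ∀ Δ : PTree n, Contraction Δ Γ → Dec Δ} (h : CompatOver Γ β)
    (α : Dec Γ) (Δ : PTree n) (hΔ : Δ.nE < Γ.nE + 1) :
    push Γ (fun Δ f => β Δ f * f.pull α) Δ =
      stratum Γ (β Γ (Contraction.id Γ) * α) Δ := by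
  unfold stratum push
  apply Finset.sum_congr rfl
  intro f _
  have h1 := h Δ Γ f (Contraction.id Γ)
  rw [f.cIdeal_eq_bot (by omega), Ideal.mem_bot, sub_eq_zero, Contraction.comp_id] at h1
  simp only [map_mul, h1]

theorem psiRelation_id {a b : Γ.Flag} (hab : Γ.base a = Γ.base b) :
    psiRelation a b Γ (Contraction.id Γ) = psi a + psi b := by
  have h1 : ∀ a : Γ.Flag, (Contraction.id Γ).flag a = a := by
    rintro (h | i) <;> rfl
  unfold psiRelation
  rw [h1, h1, hab, sepClass_self, sub_zero]

theorem kappaRelation_id (r : Γ.Flag) :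
    kappaRelation r Γ (Contraction.id Γ) = kappa (Γ.base r) - kappaAt Γ r (Γ.base r) := by
  classical
  have h1 : ∀ a : Γ.Flag, (Contraction.id Γ).flag a = a := by
    rintro (h | i) <;> rfl
  unfold kappaRelation
  rw [h1]
  have h2 : (Finset.univ.filter fun w => (Contraction.id Γ).vert w = Γ.base r) = {Γ.base r} := by
    ext w
    simp only [Finset.mem_filter, Finset.mem_univ, true_and, Finset.mem_singleton]
    exact Iff.rfl
  rw [h2, Finset.sum_singleton]

end CompatRelations

end Pool.Agent.PrestableChow
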