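import Mathlib
import Pool.Agent.Lib_MP_ce8637_ag.Relations

/-!
The Chow ring of a stratum is integral over finitely many classes of the ambient stack.
-/

set_option autoImplicit false

open MvPolynomial

namespace Pool.Agent.PrestableChow

theorem isIntegral_of_esymm {A Q ι : Type} [CommRing A] [CommRing Q] [Algebra A Q] [Fintype ι]
    [DecidableEq ι] (t : ι → Q)
    (h : ∀ j, ∃ a : A, algebraMap A Q a = ∑ T ∈ Finset.powersetCard j Finset.univ, ∏ i ∈ T, t i)
    (i0 : ι) : IsIntegral A (t i0) := by
  choose a ha using h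
  set k := Fintype.card ι with hk
  have hprod : ∑ j ∈ Finset.range (k + 1), algebraMap A Q (a j) * (-t i0) ^ (k - j) = 0 := by
    have h1 : ∏ i, (t i + -t i0) = 0 :=
      Finset.prod_eq_zero (Finset.mem_univ i0) (by ring)
    rw [Finset.prod_add, Finset.sum_powerset, Finset.card_univ, ← hk] at h1
    rw [← h1]
    apply Finset.sum_congr rfl
    intro j _
    rw [ha, Finset.sum_mul]
    apply Finset.sum_congr rfl
    intro T hT
    rw [Finset.mem_powersetCard] at hT
    rw [Finset.prod_const, Finset.card_sdiff_of_subset hT.1, hT.2, Finset.card_univ]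
  have h0 : algebraMap A Q (a 0) = 1 := by
    rw [ha]
    simp
  have hneg : IsIntegral A (-t i0) := by
    have hlow : (∑ j ∈ Finset.range k,
        Polynomial.C (a (j + 1)) * Polynomial.X ^ (k - (j + 1)) : Polynomial A).degree < k := by
      apply lt_of_le_of_lt (Polynomial.degree_sum_le _ _)
      rw [Finset.sup_lt_iff]
      · intro j hj
        rw [Finset.mem_range] at hj
        refine lt_of_le_of_lt (Polynomial.degree_C_mul_X_pow_le _ _) ?_
        exact_mod_cast (by omega : k - (j + 1) < k)
      · exact WithBot.bot_lt_coe k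
    refine ⟨Polynomial.X ^ k + ∑ j ∈ Finset.range k,
      Polynomial.C (a (j + 1)) * Polynomial.X ^ (k - (j + 1)), Polynomial.monic_X_pow_add hlow, ?_⟩
    rw [Polynomial.eval₂_add, Polynomial.eval₂_X_pow, Polynomial.eval₂_finsetSum]
    simp only [Polynomial.eval₂_mul, Polynomial.eval₂_C, Polynomial.eval₂_X_pow]
    rw [Finset.sum_range_succ', h0, Nat.sub_zero, one_mul] at hprod
    rw [add_comm]
    exact hprod
  have := hneg.neg
  rwa [neg_neg] at this

variable {n : ℕ}

/-- the class `ψ_i` of a marking -/
noncomputable def legClass (i : Fin n) : ∀ Δ : PTree n, Dec Δ := fun _ => psi (Sum.inr i)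

/-- the class `κ_2` -/
noncomputable def kappaClass : ∀ Δ : PTree n, Dec Δ := fun _ => ∑ v, kappa v

/-- the sum of the classes of the closed strata of codimension `j` -/
noncomputable def bdryClass (j : ℕ) : ∀ Δ : PTree n, Dec Δ := fun Δ =>
  ∑ T ∈ Finset.powersetCard j (Finset.univ : Finset Δ.Edge), ∏ e ∈ T, normal e

theorem legClass_compat (i : Fin n) : Compat (legClass i) := by
  intro Δ' Δ g
  unfold legClass
  rw [Contraction.pull_psi]
  have : g.flag (Sum.inr i) = Sum.inr i := rfl
  rw [this, sub_self]
  exact Ideal.zero_mem _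

theorem kappaClass_compat : Compat (kappaClass (n := n)) := by
  intro Δ' Δ g
  unfold kappaClass
  rw [map_sum]
  simp only [Contraction.pull_kappa]
  rw [Finset.sum_fiberwise, sub_self]
  exact Ideal.zero_mem _

theorem bdryClass_compat (j : ℕ) : Compat (bdryClass (n := n) j) := by
  classical
  intro Δ' Δ g
  unfold bdryClass
  rw [map_sum]
  let S : Finset (Finset Δ'.Edge) :=
    (Finset.powersetCard j (Finset.univ : Finset Δ.Edge)).image (Finset.image g.edge)
  have hS : S ⊆ Finset.powersetCard j (Finset.univ : Finset Δ'.Edge) := by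
    intro T hT
    obtain ⟨T0, hT0, rfl⟩ := Finset.mem_image.mp hT
    rw [Finset.mem_powersetCard] at hT0 ⊢
    exact ⟨Finset.subset_univ _, by rw [Finset.card_image_of_injective _ g.edge_injective, hT0.2]⟩
  rw [← Finset.sum_sdiff hS]
  have h1 : ∑ T ∈ S, ∏ e ∈ T, normal e =
      ∑ T ∈ Finset.powersetCard j (Finset.univ : Finset Δ.Edge), g.pull (∏ e ∈ T, normal e) := by
    rw [Finset.sum_image]
    · apply Finset.sum_congr rfl
      intro T _
      rw [Finset.prod_image (fun x _ y _ h => g.edge_injective h), map_prod]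
      simp only [Contraction.pull_normal]
    · intro T1 _ T2 _ h
      exact Finset.image_injective g.edge_injective h
  rw [h1, add_sub_cancel_right]
  apply Ideal.sum_mem
  intro T hT
  rw [Finset.mem_sdiff] at hT
  have h2 : ∃ e ∈ T, e ∈ g.contracted := by
    by_contra hcon
    push Not at hcon
    apply hT.2
    have h3 : ∀ e ∈ T, ∃ e', g.edge e' = e := fun e he =>
      Contraction.not_mem_contracted (hcon e he)
    have h4 : T = (T.preimage g.edge (g.edge_injective.injOn)).image g.edge := by
      ext e
      rw [Finset.mem_image]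
      constructor
      · intro he
        obtain ⟨e', rfl⟩ := h3 e he
        exact ⟨e', Finset.mem_preimage.mpr he, rfl⟩
      · rintro ⟨e', he', rfl⟩
        exact Finset.mem_preimage.mp he'
    rw [Finset.mem_image]
    refine ⟨T.preimage g.edge (g.edge_injective.injOn), ?_, h4.symm⟩
    rw [Finset.mem_powersetCard]
    refine ⟨Finset.subset_univ _, ?_⟩
    rw [← Finset.card_image_of_injective _ g.edge_injective, ← h4]
    exact (Finset.mem_powersetCard.mp hT.1).2
  obtain ⟨e, he, hc⟩ := h2
  rw [← Finset.mul_prod_erase T _ he]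
  exact Ideal.mul_mem_right _ _ (g.normal_mem_cIdeal hc)

theorem legClass_mem (i : Fin n) : legClass i ∈ StrataAlgebra n :=
  mem_strataAlgebra (legClass_compat i) ⟨1, fun _ => psi_degree _⟩

theorem kappaClass_mem : kappaClass ∈ StrataAlgebra n :=
  mem_strataAlgebra kappaClass_compat
    ⟨1, fun _ => totalDegree_finsetSum_le (fun v _ => kappa_degree v)⟩

theorem bdryClass_mem (j : ℕ) : bdryClass j ∈ StrataAlgebra n := by
  refine mem_strataAlgebra (bdryClass_compat j) ⟨j, fun Δ => ?_⟩
  apply totalDegree_finsetSum_le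
  intro T hT
  refine (totalDegree_finsetProd _ _).trans ?_
  refine (Finset.sum_le_sum (fun e _ => normal_degree _)).trans ?_
  rw [Finset.mem_powersetCard] at hT
  simp [hT.2]

/-- the finitely many classes over which everything is integral -/
noncomputable def gens (n m : ℕ) : Set (StrataRing n) :=
  {x | (∃ j, j ≤ m ∧ x.1 = bdryClass j) ∨ (∃ i, x.1 = legClass i) ∨ x.1 = kappaClass}

theorem gens_finite (n m : ℕ) : (gens n m).Finite := by
  have h : gens n m = ((fun j => (⟨bdryClass j, bdryClass_mem j⟩ : StrataRing n)) '' {j | j ≤ m}) ∪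
      (Set.range (fun i => (⟨legClass i, legClass_mem i⟩ : StrataRing n))) ∪
      {(⟨kappaClass, kappaClass_mem⟩ : StrataRing n)} := by
    ext x
    constructor
    · rintro (⟨j, hj, h⟩ | ⟨i, h⟩ | h)
      · exact Or.inl (Or.inl ⟨j, hj, Subtype.ext h.symm⟩)
      · exact Or.inl (Or.inr ⟨i, Subtype.ext h.symm⟩)
      · exact Or.inr (Subtype.ext h)
    · rintro ((⟨j, hj, rfl⟩ | ⟨i, rfl⟩) | h)
      · exact Or.inl ⟨j, hj, rfl⟩
      · exact Or.inr (Or.inl ⟨i, rfl⟩)
      · exact Or.inr (Or.inr (congrArg Subtype.val h))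
  rw [h]
  exact ((Set.finite_le_nat m).image _).union (Set.finite_range _) |>.union (Set.finite_singleton _)

/-- the subalgebra generated by these classes -/
noncomputable def baseAlg (n m : ℕ) : Subalgebra ℚ (StrataRing n) := Algebra.adjoin ℚ (gens n m)

/-- the restriction to the stratum `Γ` -/
noncomputable def res (Γ : PTree n) : StrataRing n →ₐ[ℚ] Dec Γ :=
  (Pi.evalAlgHom ℚ (fun Δ : PTree n => Dec Δ) Γ).comp (StrataAlgebra n).val

theorem res_apply (Γ : PTree n) (x : StrataRing n) : res Γ x = x.1 Γ := rfl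

/-- the relations on the open stratum `Γ` -/
noncomputable def openIdeal (Γ : PTree n) : Ideal (Dec Γ) :=
  Ideal.span ({x | ∃ a b : Γ.Flag, a ≠ b ∧ Γ.base a = Γ.base b ∧ x = psi a + psi b} ∪
    {x | ∃ r : Γ.Flag, x = kappa (Γ.base r) - kappaAt Γ r (Γ.base r)})

theorem towards_iff_of_base_eq (Γ : PTree n) {r a : Γ.Flag} (h : Γ.base a = Γ.base r) :
    Towards Γ r a ↔ a = r := by
  unfold Towards
  constructor
  · rintro (h1 | ⟨h', rfl, h2⟩)
    · exact h1
    · exact absurd h2 (by
        have : Γ.ends h' = Γ.base r := h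
        rw [this]
        exact not_separates_self Γ _ _)
  · exact Or.inl

end Pool.Agent.PrestableChow
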