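import Mathlib
import Pool.Agent.Lib_MP_ce8637_ag.Integral

/-!
The Chow ring of an open stratum is a finite module over the algebra generated by finitely many
classes of the ambient stack.
-/

set_option autoImplicit false

open MvPolynomial

namespace Pool.Agent.PrestableChow

variable {n : ℕ}

/-- if the tree has an edge then every vertex has a half-edge -/
theorem exists_half (Γ : PTree n) (e : Γ.Edge) (v : Γ.Vert) : ∃ h : Γ.Half, Γ.ends h = v := by
  have h := (Γ.conn v (Γ.ends (e, false))).invariant (fun x => ∃ h : Γ.Half, Γ.ends h = x)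
    (fun e' _ => ⟨fun _ => ⟨_, rfl⟩, fun _ => ⟨_, rfl⟩⟩)
  exact h.mpr ⟨_, rfl⟩

section Aux

variable (Γ : PTree n) {A Q : Type} [CommRing A] [CommRing Q] [Algebra ℚ A] [Algebra ℚ Q]
  [Algebra A Q] [IsScalarTower ℚ A Q] (π : Dec Γ →ₐ[ℚ] Q)

theorem integral_smul {q : Q} (c : ℚ) (h : IsIntegral A q) : IsIntegral A (c • q) := by
  rw [← algebraMap_smul A c q, Algebra.smul_def]
  exact isIntegral_algebraMap.mul h

omit [Algebra ℚ A] [IsScalarTower ℚ A Q] in
theorem integral_normal
    (hb : ∀ j, j ≤ Γ.nE → ∃ a, algebraMap A Q a = π (bdryClass j Γ)) (e : Γ.Edge) :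
    IsIntegral A (π (normal e)) := by
  classical
  apply isIntegral_of_esymm (fun e : Γ.Edge => π (normal e))
  intro j
  by_cases hj : j ≤ Γ.nE
  · obtain ⟨a, ha⟩ := hb j hj
    refine ⟨a, ?_⟩
    rw [ha, bdryClass, map_sum]
    apply Finset.sum_congr rfl
    intro T _
    rw [map_prod]
  · refine ⟨0, ?_⟩
    rw [Finset.powersetCard_eq_empty.mpr (by simpa using hj), Finset.sum_empty, map_zero]

omit [Algebra ℚ A] [IsScalarTower ℚ A Q] in
theorem propagate
    (hψ : ∀ a b : Γ.Flag, a ≠ b → Γ.base a = Γ.base b → π (psi a) + π (psi b) = 0)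
    (hN : ∀ e : Γ.Edge, IsIntegral A (π (normal e))) (Good : Q → Prop)
    (hneg : ∀ q, Good q → Good (-q)) (hadd : ∀ q b, Good q → IsIntegral A b → Good (q + b))
    (a0 : Γ.Flag) (h0 : Good (π (psi a0))) (a : Γ.Flag) : Good (π (psi a)) := by
  have hsame : ∀ a b : Γ.Flag, Γ.base a = Γ.base b → Good (π (psi a)) → Good (π (psi b)) := by
    intro a b hab h
    by_cases he : a = b
    · rwa [← he]
    · have h1 : π (psi b) = - π (psi a) := by
        have := hψ a b he hab
        rw [add_comm] at this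
        exact eq_neg_of_add_eq_zero_left this
      rw [h1]
      exact hneg _ h
  have hedge : ∀ (e : Γ.Edge), π (psi (Sum.inl (e, true))) =
      - π (psi (Sum.inl (e, false))) + - π (normal e) := by
    intro e
    unfold normal
    rw [map_neg, map_add]
    ring
  have hinv := (Γ.conn (Γ.base a0) (Γ.base a)).invariant
    (fun v => ∀ a, Γ.base a = v → Good (π (psi a))) (by
      intro e _
      constructor
      · intro h b hb
        have h1 := h (Sum.inl (e, false)) rfl
        have h2 : Good (π (psi (Sum.inl (e, true)))) := by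
          rw [hedge]
          exact hadd _ _ (hneg _ h1) (hN e).neg
        exact hsame _ _ (show Γ.base (Sum.inl (e, true)) = _ from hb.symm) h2
      · intro h b hb
        have h1 := h (Sum.inl (e, true)) rfl
        have h2 : Good (π (psi (Sum.inl (e, false)))) := by
          have h3 : π (psi (Sum.inl (e, false))) =
              - π (psi (Sum.inl (e, true))) + - π (normal e) := by
            rw [hedge]
            ring
          rw [h3]
          exact hadd _ _ (hneg _ h1) (hN e).neg
        exact hsame _ _ (show Γ.base (Sum.inl (e, false)) = _ from hb.symm) h2)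
  exact hinv.mp (fun b hb => hsame a0 b hb.symm h0) a rfl

theorem integral_psi
    (hψ : ∀ a b : Γ.Flag, a ≠ b → Γ.base a = Γ.base b → π (psi a) + π (psi b) = 0)
    (hκ : ∀ r : Γ.Flag, π (kappa (Γ.base r)) = π (kappaAt Γ r (Γ.base r)))
    (hb : ∀ j, j ≤ Γ.nE → ∃ a, algebraMap A Q a = π (bdryClass j Γ))
    (hl : ∀ i : Fin n, ∃ a, algebraMap A Q a = π (psi (Sum.inr i)))
    (hk : ∃ a, algebraMap A Q a = π (∑ v : Γ.Vert, kappa v)) (a : Γ.Flag) :
    IsIntegral A (π (psi a)) := by
  classical
  have hN := integral_normal Γ π hb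
  by_contra hcon
  -- no class `ψ` is integral
  have hno : ∀ b : Γ.Flag, ¬ IsIntegral A (π (psi b)) := by
    intro b hb'
    exact hcon (propagate Γ π hψ hN (fun q => IsIntegral A q) (fun q h => h.neg)
      (fun q b h h' => h.add h') b hb' a)
  have hn : IsEmpty (Fin n) := by
    constructor
    intro i
    obtain ⟨c, hc⟩ := hl i
    apply hno (Sum.inr i)
    rw [← hc]
    exact isIntegral_algebraMap
  have hthree : ∀ v : Γ.Vert, (Finset.univ.filter fun b => Γ.base b = v).card ≤ 2 := by
    intro v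
    by_contra h3
    push Not at h3
    obtain ⟨b1, h1, b2, h2, b3, h3, h12, h13, h23⟩ := Finset.two_lt_card.mp h3
    simp only [Finset.mem_filter, Finset.mem_univ, true_and] at h1 h2 h3
    have e12 := hψ b1 b2 h12 (h1.trans h2.symm)
    have e13 := hψ b1 b3 h13 (h1.trans h3.symm)
    have e23 := hψ b2 b3 h23 (h2.trans h3.symm)
    have h4 : (2 : ℚ) • π (psi b1) = 0 := by
      have : (2 : ℚ) • π (psi b1) = (π (psi b1) + π (psi b2)) + (π (psi b1) + π (psi b3)) -
          (π (psi b2) + π (psi b3)) := by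
        rw [two_smul]
        ring
      rw [this, e12, e13, e23]
      simp
    have h5 : π (psi b1) = 0 := by
      have h6 := congrArg (fun q => (2⁻¹ : ℚ) • q) h4
      simp only [smul_smul, smul_zero] at h6
      rw [inv_mul_cancel₀ (by norm_num), one_smul] at h6
      exact h6
    apply hno b1
    rw [h5]
    exact isIntegral_zero
  obtain ⟨h0, rfl⟩ : ∃ h : Γ.Half, a = Sum.inl h := by
    rcases a with h | i
    · exact ⟨h, rfl⟩
    · exact hn.elim i
  set x := π (psi (Sum.inl h0)) with hx
  have hgood : ∀ b : Γ.Flag, ∃ c, IsIntegral A c ∧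
      (π (psi b) = x + c ∨ π (psi b) = -x + c) := by
    intro b
    refine propagate Γ π hψ hN (fun q => ∃ c, IsIntegral A c ∧ (q = x + c ∨ q = -x + c))
      ?_ ?_ (Sum.inl h0) ⟨0, isIntegral_zero, Or.inl (by rw [add_zero])⟩ b
    · rintro q ⟨c, hc, h | h⟩
      · exact ⟨-c, hc.neg, Or.inr (by rw [h]; ring)⟩
      · exact ⟨-c, hc.neg, Or.inl (by rw [h]; ring)⟩
    · rintro q b ⟨c, hc, h | h⟩ hb'
      · exact ⟨c + b, hc.add hb', Or.inl (by rw [h]; ring)⟩
      · exact ⟨c + b, hc.add hb', Or.inr (by rw [h]; ring)⟩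
  -- the contribution of a vertex
  have hvert : ∀ v : Γ.Vert, ∃ s t : Q, IsIntegral A s ∧ IsIntegral A t ∧
      π (kappa v) = -((2 - (Finset.univ.filter fun b => Γ.base b = v).card : ℕ) * x ^ 2
        + 2 * s * x + t) := by
    intro v
    obtain ⟨h, hh⟩ := exists_half Γ h0.1 v
    set r : Γ.Flag := Sum.inl h with hr
    have hrv : Γ.base r = v := hh
    have hmem : r ∈ Finset.univ.filter fun b => Γ.base b = v := by simpa using hrv
    have hpos : 0 < (Finset.univ.filter fun b => Γ.base b = v).card := Finset.card_pos.mpr ⟨r, hmem⟩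
    have hle := hthree v
    have hsgnr : sgn Γ r r = -1 := if_pos (Or.inl rfl)
    have hkv : π (kappa v) = π (kappaAt Γ r v) := by
      have := hκ r
      rwa [hrv] at this
    have hk2 : kappaAt Γ r v = ∑ a with Γ.base a = v, sgn Γ r a * psi a ^ 2 := rfl
    rcases (by omega : (Finset.univ.filter fun b => Γ.base b = v).card = 1 ∨
      (Finset.univ.filter fun b => Γ.base b = v).card = 2) with h1 | h2
    · obtain ⟨r', hr'⟩ := Finset.card_eq_one.mp h1
      have hrr : r' = r := by
        rw [hr', Finset.mem_singleton] at hmem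
        exact hmem.symm
      rw [hrr] at hr'
      rw [hr', Finset.sum_singleton, hsgnr] at hk2
      obtain ⟨c, hc, h | h⟩ := hgood r
      · refine ⟨c, c ^ 2, hc, hc.pow 2, ?_⟩
        rw [hkv, hk2, h1]
        simp only [map_mul, map_pow, map_neg, map_one]
        rw [h]
        push_cast
        ring
      · refine ⟨-c, c ^ 2, hc.neg, hc.pow 2, ?_⟩
        rw [hkv, hk2, h1]
        simp only [map_mul, map_pow, map_neg, map_one]
        rw [h]
        push_cast
        ring
    · refine ⟨0, 0, isIntegral_zero, isIntegral_zero, ?_⟩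
      obtain ⟨b1, b2, hne, hb12⟩ := Finset.card_eq_two.mp h2
      have hex : ∃ b, b ≠ r ∧ (Finset.univ.filter fun b => Γ.base b = v) = {r, b} := by
        rw [hb12, Finset.mem_insert, Finset.mem_singleton] at hmem
        rcases hmem with h | h
        · exact ⟨b2, by rw [h]; exact hne.symm, by rw [hb12, h]⟩
        · exact ⟨b1, by rw [h]; exact hne, by rw [hb12, h, Finset.pair_comm]⟩
      obtain ⟨b, hbr, hD⟩ := hex
      have hbv : Γ.base b = v := by
        have : b ∈ Finset.univ.filter fun b => Γ.base b = v := by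
          rw [hD]
          simp
        simpa using this
      have hsgnb : sgn Γ r b = 1 := by
        unfold sgn
        rw [if_neg]
        rw [towards_iff_of_base_eq Γ (hbv.trans hrv.symm)]
        exact hbr
      rw [hD, Finset.sum_pair hbr.symm, hsgnr, hsgnb] at hk2
      have h3 := hψ b r hbr (hbv.trans hrv.symm)
      rw [hkv, hk2, h2]
      simp only [map_add, map_mul, map_pow, map_neg, map_one]
      push_cast
      linear_combination (π (psi b) - π (psi r)) * h3
  choose s t hs ht hst using hvert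
  have hcount : ∑ v : Γ.Vert, (2 - (Finset.univ.filter fun b => Γ.base b = v).card : ℕ) = 2 := by
    have h1 : ∑ v : Γ.Vert, ((2 - (Finset.univ.filter fun b => Γ.base b = v).card) +
        (Finset.univ.filter fun b => Γ.base b = v).card) = 2 * (Γ.nE + 1) := by
      rw [Finset.sum_congr rfl (fun v _ => Nat.sub_add_cancel (hthree v)), Finset.sum_const,
        Finset.card_univ, Fintype.card_fin, smul_eq_mul, mul_comm]
    have h2 : ∑ v : Γ.Vert, (Finset.univ.filter fun b => Γ.base b = v).card = 2 * Γ.nE := by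
      rw [← Finset.card_eq_sum_card_fiberwise (s := Finset.univ) (t := Finset.univ)
        (f := Γ.base) (fun _ _ => Finset.mem_coe.mpr (Finset.mem_univ _)), Finset.card_univ,
        Fintype.card_sum, Fintype.card_prod, Fintype.card_fin, Fintype.card_bool,
        Fintype.card_eq_zero_iff.mpr hn]
      ring
    rw [Finset.sum_add_distrib, h2] at h1
    omega
  obtain ⟨κ, hκ'⟩ := hk
  have htotal : algebraMap A Q κ = -(2 * x ^ 2 + 2 * (∑ v, s v) * x + ∑ v, t v) := by
    rw [hκ', map_sum, Finset.sum_congr rfl (fun v _ => hst v), Finset.sum_neg_distrib,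
      Finset.sum_add_distrib, Finset.sum_add_distrib, ← Finset.sum_mul, ← Nat.cast_sum, hcount,
      Finset.mul_sum, Finset.sum_mul]
    push_cast
    rfl
  have hS : IsIntegral A (∑ v, s v) := IsIntegral.sum _ (fun v _ => hs v)
  have hT : IsIntegral A (∑ v, t v) := IsIntegral.sum _ (fun v _ => ht v)
  have hsq : (2 * x + ∑ v, s v) ^ 2 =
      (∑ v, s v) ^ 2 + 2 * (-(algebraMap A Q κ) - ∑ v, t v) := by
    rw [htotal]
    ring
  have htwo : IsIntegral A (2 : Q) := by
    have : (2 : Q) = algebraMap A Q 2 := (map_ofNat _ 2).symm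
    rw [this]
    exact isIntegral_algebraMap
  have h1 : IsIntegral A ((2 * x + ∑ v, s v) ^ 2) := by
    rw [hsq]
    exact (hS.pow 2).add (htwo.mul (isIntegral_algebraMap.neg.sub hT))
  have h2 : IsIntegral A (2 * x + ∑ v, s v) := IsIntegral.of_pow (by norm_num) h1
  have h3 : IsIntegral A x := by
    have h4 : x = (2⁻¹ : ℚ) • ((2 * x + ∑ v, s v) - ∑ v, s v) := by
      rw [add_sub_cancel_right, ← smul_mul_assoc]
      have : (2⁻¹ : ℚ) • (2 : Q) = 1 := by
        rw [Algebra.smul_def, ← map_ofNat (algebraMap ℚ Q) 2, ← map_mul]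
        norm_num
      rw [this, one_mul]
    rw [h4]
    exact integral_smul _ (h2.sub hS)
  exact hcon h3

theorem integral_all (hπ : Function.Surjective π)
    (hψ : ∀ a b : Γ.Flag, a ≠ b → Γ.base a = Γ.base b → π (psi a) + π (psi b) = 0)
    (hκ : ∀ r : Γ.Flag, π (kappa (Γ.base r)) = π (kappaAt Γ r (Γ.base r)))
    (hb : ∀ j, j ≤ Γ.nE → ∃ a, algebraMap A Q a = π (bdryClass j Γ))
    (hl : ∀ i : Fin n, ∃ a, algebraMap A Q a = π (psi (Sum.inr i)))
    (hk : ∃ a, algebraMap A Q a = π (∑ v : Γ.Vert, kappa v)) (q : Q) : IsIntegral A q := by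
  classical
  have h1 := integral_psi Γ π hψ hκ hb hl hk
  have h2 : ∀ v : Γ.Vert, IsIntegral A (π (kappa v)) := by
    intro v
    by_cases hv : ∃ r : Γ.Flag, Γ.base r = v
    · obtain ⟨r, rfl⟩ := hv
      rw [hκ]
      unfold kappaAt
      have hsgn : ∀ a, IsIntegral A (π (sgn Γ r a)) := by
        intro a
        unfold sgn
        split_ifs
        · rw [map_neg, map_one]
          exact isIntegral_one.neg
        · rw [map_one]
          exact isIntegral_one
      simp only [map_mul, map_pow, map_sum]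
      exact IsIntegral.sum _ (fun a _ => (hsgn a).mul ((h1 a).pow 2))
    · have h0 : Γ.nE = 0 := by
        by_contra hne
        obtain ⟨h, hh⟩ := exists_half Γ ⟨0, Nat.pos_of_ne_zero hne⟩ v
        exact hv ⟨Sum.inl h, hh⟩
      have h3 : (Finset.univ : Finset Γ.Vert) = {v} := by
        ext w
        simp only [Finset.mem_univ, Finset.mem_singleton, true_iff]
        apply Fin.ext
        have := w.2
        have := v.2
        omega
      obtain ⟨κ, hκ'⟩ := hk
      rw [h3, Finset.sum_singleton] at hκ'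
      rw [← hκ']
      exact isIntegral_algebraMap
  obtain ⟨p, rfl⟩ := hπ q
  induction p using MvPolynomial.induction_on with
  | C c =>
    have : π (C c) = algebraMap A Q (algebraMap ℚ A c) := by
      rw [← IsScalarTower.algebraMap_apply ℚ A Q]
      exact π.commutes c
    rw [this]
    exact isIntegral_algebraMap
  | add p q hp hq =>
    rw [map_add]
    exact hp.add hq
  | mul_X p i hp =>
    rw [map_mul]
    apply hp.mul
    rcases i with a | v
    · exact h1 a
    · exact h2 v

end Aux

theorem finite_aux (Γ : PTree n) {A Q : Type} [CommRing A] [CommRing Q] [Algebra ℚ A] [Algebra ℚ Q]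
    [Algebra A Q] [IsScalarTower ℚ A Q] [Algebra.FiniteType ℚ Q] (π : Dec Γ →ₐ[ℚ] Q)
    (hπ : Function.Surjective π)
    (hψ : ∀ a b : Γ.Flag, a ≠ b → Γ.base a = Γ.base b → π (psi a) + π (psi b) = 0)
    (hκ : ∀ r : Γ.Flag, π (kappa (Γ.base r)) = π (kappaAt Γ r (Γ.base r)))
    (hb : ∀ j, j ≤ Γ.nE → ∃ a, algebraMap A Q a = π (bdryClass j Γ))
    (hl : ∀ i : Fin n, ∃ a, algebraMap A Q a = π (psi (Sum.inr i)))
    (hk : ∃ a, algebraMap A Q a = π (∑ v : Γ.Vert, kappa v)) : Module.Finite A Q := by
  have hft : Algebra.FiniteType A Q := Algebra.FiniteType.of_restrictScalars_finiteType ℚ A Q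
  have hint : Algebra.IsIntegral A Q := ⟨integral_all Γ π hπ hψ hκ hb hl hk⟩
  exact Algebra.IsIntegral.finite

/-- the base algebra, as a ring -/
def BaseRing (n m : ℕ) : Type := baseAlg n m

noncomputable instance (n m : ℕ) : CommRing (BaseRing n m) :=
  inferInstanceAs (CommRing (baseAlg n m))

noncomputable instance (n m : ℕ) : Algebra ℚ (BaseRing n m) :=
  inferInstanceAs (Algebra ℚ (baseAlg n m))

/-- the inclusion of the base algebra -/
noncomputable def BaseRing.incl (n m : ℕ) : BaseRing n m →ₐ[ℚ] StrataRing n :=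
  (baseAlg n m).val

theorem BaseRing.exists_of_mem_gens {n m : ℕ} {x : StrataRing n} (hx : x ∈ gens n m) :
    ∃ a : BaseRing n m, BaseRing.incl n m a = x :=
  ⟨⟨x, Algebra.subset_adjoin hx⟩, rfl⟩

/-- the Chow ring of the open stratum `Γ` -/
def OpenRing (Γ : PTree n) : Type := Dec Γ ⧸ openIdeal Γ

noncomputable instance (Γ : PTree n) : CommRing (OpenRing Γ) :=
  inferInstanceAs (CommRing (Dec Γ ⧸ openIdeal Γ))

noncomputable instance (Γ : PTree n) : Algebra ℚ (OpenRing Γ) :=
  inferInstanceAs (Algebra ℚ (Dec Γ ⧸ openIdeal Γ))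

/-- the projection -/
noncomputable def openMk (Γ : PTree n) : Dec Γ →ₐ[ℚ] OpenRing Γ :=
  Ideal.Quotient.mkₐ ℚ (openIdeal Γ)

theorem openMk_surjective (Γ : PTree n) : Function.Surjective (openMk Γ) :=
  Ideal.Quotient.mkₐ_surjective ℚ _

theorem openMk_eq_zero_iff {Γ : PTree n} {x : Dec Γ} : openMk Γ x = 0 ↔ x ∈ openIdeal Γ :=
  Ideal.Quotient.eq_zero_iff_mem

/-- the restriction of the base algebra to a stratum -/
noncomputable def rho (Γ : PTree n) (m : ℕ) : BaseRing n m →ₐ[ℚ] OpenRing Γ :=
  ((openMk Γ).comp (res Γ)).comp (BaseRing.incl n m)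

theorem rho_finite (Γ : PTree n) (m : ℕ) (hm : Γ.nE ≤ m) :
    @Module.Finite (BaseRing n m) (OpenRing Γ) _ _ (rho Γ m).toRingHom.toAlgebra.toModule := by
  let _ : Algebra (BaseRing n m) (OpenRing Γ) := (rho Γ m).toRingHom.toAlgebra
  have htower : IsScalarTower ℚ (BaseRing n m) (OpenRing Γ) := by
    apply IsScalarTower.of_algebraMap_eq
    intro c
    exact ((rho Γ m).commutes c).symm
  have h1 : Algebra.FiniteType ℚ (OpenRing Γ) :=
    Algebra.FiniteType.of_surjective (openMk Γ) (openMk_surjective Γ)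
  apply finite_aux Γ (openMk Γ) (openMk_surjective Γ)
  · intro a b hab h
    rw [← map_add, openMk_eq_zero_iff]
    exact Ideal.subset_span (Or.inl ⟨a, b, hab, h, rfl⟩)
  · intro r
    rw [← sub_eq_zero, ← map_sub, openMk_eq_zero_iff]
    exact Ideal.subset_span (Or.inr ⟨r, rfl⟩)
  · intro j hj
    obtain ⟨a, ha⟩ := BaseRing.exists_of_mem_gens (n := n) (m := m)
      (x := ⟨bdryClass j, bdryClass_mem j⟩) (Or.inl ⟨j, hj.trans hm, rfl⟩)
    refine ⟨a, ?_⟩
    show openMk Γ (res Γ (BaseRing.incl n m a)) = _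
    rw [ha]
    rfl
  · intro i
    obtain ⟨a, ha⟩ := BaseRing.exists_of_mem_gens (n := n) (m := m)
      (x := ⟨legClass i, legClass_mem i⟩) (Or.inr (Or.inl ⟨i, rfl⟩))
    refine ⟨a, ?_⟩
    show openMk Γ (res Γ (BaseRing.incl n m a)) = _
    rw [ha]
    rfl
  · obtain ⟨a, ha⟩ := BaseRing.exists_of_mem_gens (n := n) (m := m)
      (x := ⟨kappaClass, kappaClass_mem⟩) (Or.inr (Or.inr rfl))
    refine ⟨a, ?_⟩
    show openMk Γ (res Γ (BaseRing.incl n m a)) = _
    rw [ha]
    rfl

end Pool.Agent.PrestableChow
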