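import Mathlib
import Pool.Agent.Lib_MP_ce8637_ag.Stratum

/-!
Finite generation of the Chow rings of open unions of strata of finite type.
-/

set_option autoImplicit false

open MvPolynomial

namespace Pool.Agent.PrestableChow

variable {n : ℕ}

theorem mem_of_span {A R T Q : Type} [CommRing A] [CommRing R] [Algebra A R] [CommRing T]
    [CommRing Q] [Algebra A Q] (π : T →+ Q) (hπ : Function.Surjective π) (Θ : T →+ R)
    (P : Submodule A R) (h0 : ∀ α, π α = 0 → Θ α ∈ P)
    (hact : ∀ (a : A) (α : T), ∃ α', π α' = a • π α ∧ Θ α' - a • Θ α ∈ P)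
    (s : Set T) (hs : Submodule.span A (π '' s) = ⊤) (hsP : ∀ t ∈ s, Θ t ∈ P) (α : T) :
    Θ α ∈ P := by
  have hwd : ∀ α β, π α = π β → Θ β ∈ P → Θ α ∈ P := by
    intro α β h hβ
    have h1 := h0 (α - β) (by rw [map_sub, h, sub_self])
    rw [map_sub] at h1
    have := P.add_mem h1 hβ
    rwa [sub_add_cancel] at this
  have key : ∀ q ∈ Submodule.span A (π '' s), ∀ α, π α = q → Θ α ∈ P := by
    intro q hq
    induction hq using Submodule.span_induction with
    | mem q hq =>
      obtain ⟨t, ht, rfl⟩ := hq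
      intro α hα
      exact hwd _ _ hα (hsP t ht)
    | zero => exact h0
    | add q1 q2 _ _ h1 h2 =>
      intro α hα
      obtain ⟨α1, rfl⟩ := hπ q1
      have h3 := h2 (α - α1) (by rw [map_sub, hα, add_sub_cancel_left])
      have := P.add_mem (h1 α1 rfl) h3
      rwa [← map_add, add_sub_cancel] at this
    | smul a q _ h1 =>
      intro α hα
      obtain ⟨α1, rfl⟩ := hπ q
      obtain ⟨α', h2, h3⟩ := hact a α1
      refine hwd _ α' (hα.trans h2.symm) ?_
      have := P.add_mem h3 (P.smul_mem a (h1 α1 rfl))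
      rwa [sub_add_cancel] at this
  exact key (π α) (by rw [hs]; trivial) α rfl

/-- the inclusion of the strata algebra into the families -/
noncomputable def valHom (n : ℕ) : StrataRing n →ₐ[ℚ] (∀ Δ : PTree n, Dec Δ) :=
  (StrataAlgebra n).val

/-- the decorated stratum class, as an element of the strata algebra -/
noncomputable def cls (Γ : PTree n) (α : Dec Γ) : StrataRing n :=
  ⟨stratum Γ α, Algebra.subset_adjoin ⟨Γ, α, rfl⟩⟩

/-- the decorated stratum class, as an additive map -/
noncomputable def clsHom (Γ : PTree n) : Dec Γ →+ StrataRing n where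
  toFun := cls Γ
  map_zero' := Subtype.ext stratum_zero
  map_add' α β := Subtype.ext (stratum_add α β)

/-- the classes vanishing on all trees with fewer than `k` edges -/
noncomputable def J (n k : ℕ) : Ideal (StrataRing n) where
  carrier := {x | ∀ Δ : PTree n, Δ.nE < k → x.1 Δ = 0}
  add_mem' {x y} hx hy := by
    intro Δ hΔ
    show x.1 Δ + y.1 Δ = 0
    rw [hx Δ hΔ, hy Δ hΔ, add_zero]
  zero_mem' := by
    intro Δ _
    rfl
  smul_mem' c x hx := by
    intro Δ hΔ
    show c.1 Δ * x.1 Δ = 0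
    rw [hx Δ hΔ, mul_zero]

theorem mem_J {k : ℕ} {x : StrataRing n} : x ∈ J n k ↔ ∀ Δ : PTree n, Δ.nE < k → x.1 Δ = 0 :=
  Iff.rfl

theorem cls_mem_J (Γ : PTree n) (α : Dec Γ) : cls Γ α ∈ J n Γ.nE := by
  intro Δ hΔ
  exact stratum_eq_zero hΔ α

/-- `x [Γ, α] - [Γ, x|_Γ α]` is supported on deeper strata -/
theorem mul_cls_sub_mem (x : StrataRing n) (Γ : PTree n) (α : Dec Γ) :
    x * cls Γ α - cls Γ (res Γ x * α) ∈ J n (Γ.nE + 1) := by
  intro Δ hΔ
  show x.1 Δ * stratum Γ α Δ - stratum Γ (res Γ x * α) Δ = 0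
  unfold stratum push
  rw [Finset.mul_sum, ← Finset.sum_sub_distrib]
  apply Finset.sum_eq_zero
  intro f _
  have h1 := (compat_of_mem x.2).eq_pull f (by omega)
  show x.1 Δ * (f.pull α * _) - f.pull (res Γ x * α) * _ = 0
  rw [res_apply, map_mul, h1]
  ring

/-- the relations on an open stratum, up to classes supported on deeper strata -/
theorem cls_mem_of_openIdeal (Γ : PTree n) {α : Dec Γ} (hα : α ∈ openIdeal Γ) :
    cls Γ α ∈ relations n ⊔ J n (Γ.nE + 1) := by
  classical
  have hgen : ∀ (β : ∀ Δ : PTree n, Contraction Δ Γ → Dec Δ) (hc : CompatOver Γ β)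
      (hb : BddOver Γ β) (γ : Dec Γ), (⟨_, push_mem hc hb γ⟩ : StrataRing n) ∈ relations n →
      cls Γ (β Γ (Contraction.id Γ) * γ) ∈ relations n ⊔ J n (Γ.nE + 1) := by
    intro β hc hb γ hrel
    have h1 : cls Γ (β Γ (Contraction.id Γ) * γ) - ⟨_, push_mem hc hb γ⟩ ∈ J n (Γ.nE + 1) := by
      intro Δ hΔ
      show stratum Γ (β Γ (Contraction.id Γ) * γ) Δ - push Γ (fun Δ f => β Δ f * f.pull γ) Δ = 0
      rw [push_leading hc γ Δ hΔ, sub_self]
    have h2 := Ideal.add_mem (relations n ⊔ J n (Γ.nE + 1)) (Ideal.mem_sup_left hrel)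
      (Ideal.mem_sup_right h1)
    rwa [add_sub_cancel] at h2
  let K : Ideal (Dec Γ) :=
    { carrier := {x | ∀ γ : Dec Γ, cls Γ (x * γ) ∈ relations n ⊔ J n (Γ.nE + 1)}
      add_mem' := by
        intro x y hx hy γ
        have h1 : cls Γ ((x + y) * γ) = cls Γ (x * γ) + cls Γ (y * γ) := by
          rw [add_mul]
          exact (clsHom Γ).map_add _ _
        rw [h1]
        exact Ideal.add_mem _ (hx γ) (hy γ)
      zero_mem' := by
        intro γ
        have h1 : cls Γ (0 * γ) = 0 := by
          rw [zero_mul]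
          exact (clsHom Γ).map_zero
        rw [h1]
        exact Ideal.zero_mem _
      smul_mem' := by
        intro c x hx γ
        have h1 : cls Γ (c • x * γ) = cls Γ (x * (c * γ)) := by
          rw [smul_eq_mul]
          congr 1
          ring
        rw [h1]
        exact hx _ }
  have hK : openIdeal Γ ≤ K := by
    unfold openIdeal
    rw [Ideal.span_le]
    rintro x (⟨a, b, hab, h, rfl⟩ | ⟨r, rfl⟩) γ
    · have h1 := hgen (psiRelation a b) (psiRelation_compat a b) (psiRelation_bdd a b) γ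
        (Ideal.subset_span (Or.inl ⟨Γ, a, b, γ, hab, h, rfl⟩))
      rwa [psiRelation_id h] at h1
    · have h1 := hgen (kappaRelation r) (kappaRelation_compat r) (kappaRelation_bdd r) γ
        (Ideal.subset_span (Or.inr ⟨Γ, r, γ, rfl⟩))
      rwa [kappaRelation_id r] at h1
  have := hK hα 1
  rwa [mul_one] at this

/-- the projection to the Chow ring -/
noncomputable def toChow (n : ℕ) (U : Set (PTree n)) : StrataRing n →ₐ[ℚ] ChowRing n U :=
  Ideal.Quotient.mkₐ ℚ (relations n ⊔ outside n U)

theorem toChow_surjective (n : ℕ) (U : Set (PTree n)) : Function.Surjective (toChow n U) :=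
  Ideal.Quotient.mkₐ_surjective ℚ _

theorem toChow_eq_zero_iff {n : ℕ} {U : Set (PTree n)} {x : StrataRing n} :
    toChow n U x = 0 ↔ x ∈ relations n ⊔ outside n U :=
  Ideal.Quotient.eq_zero_iff_mem

theorem toChow_relations {n : ℕ} {U : Set (PTree n)} {x : StrataRing n}
    (hx : x ∈ relations n) : toChow n U x = 0 :=
  toChow_eq_zero_iff.mpr (Ideal.mem_sup_left hx)

theorem toChow_cls {n : ℕ} {U : Set (PTree n)} {Γ : PTree n} (h : Γ ∉ U) (α : Dec Γ) :
    toChow n U (cls Γ α) = 0 :=
  toChow_eq_zero_iff.mpr (Ideal.mem_sup_right (Ideal.subset_span ⟨Γ, α, h, rfl⟩))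

/-- classes vanishing on all the trees with at most `m` edges are supported outside `U` -/
theorem toChow_eq_zero_of_mem_J {U : Set (PTree n)} {m : ℕ} (hU : ∀ Γ ∈ U, Γ.nE ≤ m)
    {x : StrataRing n} (hx : x ∈ J n (m + 1)) : toChow n U x = 0 := by
  apply toChow_eq_zero_iff.mpr
  apply Ideal.mem_sup_right
  obtain ⟨d, hd⟩ := bdd_of_mem x.2
  have h1 := (compat_of_mem x.2).mem_span hd (m + 1) hx
  have h2 : ∀ y ∈ Submodule.span ℚ {y : ∀ Δ : PTree n, Dec Δ | ∃ (Γ : PTree n) (α : Dec Γ),
      m + 1 ≤ Γ.nE ∧ y = stratum Γ α}, ∃ z ∈ outside n U, z.1 = y := by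
    intro y hy
    induction hy using Submodule.span_induction with
    | mem y hy =>
      obtain ⟨Γ, α, h, rfl⟩ := hy
      refine ⟨cls Γ α, Ideal.subset_span ⟨Γ, α, ?_, rfl⟩, rfl⟩
      intro hΓ
      have := hU Γ hΓ
      omega
    | zero => exact ⟨0, Ideal.zero_mem _, rfl⟩
    | add y1 y2 _ _ h1 h2 =>
      obtain ⟨z1, hz1, rfl⟩ := h1
      obtain ⟨z2, hz2, rfl⟩ := h2
      exact ⟨z1 + z2, Ideal.add_mem _ hz1 hz2, rfl⟩
    | smul c y _ h1 =>
      obtain ⟨z, hz, rfl⟩ := h1
      refine ⟨c • z, ?_, rfl⟩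
      rw [Algebra.smul_def]
      exact Ideal.mul_mem_left _ _ hz
  obtain ⟨z, hz, h3⟩ := h2 _ h1
  have : z = x := Subtype.ext h3
  rwa [← this]

/-- the algebra structure over the base algebra -/
noncomputable def baseToChow (n m : ℕ) (U : Set (PTree n)) : BaseRing n m →ₐ[ℚ] ChowRing n U :=
  (toChow n U).comp (BaseRing.incl n m)

theorem chow_finite (U : Set (PTree n)) (m : ℕ) (hU : ∀ Γ ∈ U, Γ.nE ≤ m) :
    @Module.Finite (BaseRing n m) (ChowRing n U) _ _ (baseToChow n m U).toRingHom.toAlgebra.toModule := by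
  classical
  let _ : Algebra (BaseRing n m) (ChowRing n U) := (baseToChow n m U).toRingHom.toAlgebra
  have hsmul : ∀ (a : BaseRing n m) (x : ChowRing n U),
      a • x = toChow n U (BaseRing.incl n m a) * x := fun a x => rfl
  -- the filtration
  let M : ℕ → Submodule (BaseRing n m) (ChowRing n U) := fun k =>
    { carrier := (toChow n U) '' (J n k : Set (StrataRing n))
      add_mem' := by
        rintro _ _ ⟨x, hx, rfl⟩ ⟨y, hy, rfl⟩
        exact ⟨x + y, Ideal.add_mem _ hx hy, map_add _ _ _⟩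
      zero_mem' := ⟨0, Ideal.zero_mem _, map_zero _⟩
      smul_mem' := by
        rintro a _ ⟨x, hx, rfl⟩
        refine ⟨BaseRing.incl n m a * x, Ideal.mul_mem_left _ _ hx, ?_⟩
        rw [map_mul, hsmul] }
  have hM : ∀ {k : ℕ} {x : StrataRing n}, x ∈ J n k → toChow n U x ∈ M k :=
    fun hx => ⟨_, hx, rfl⟩
  have hMmono : ∀ k, M (k + 1) ≤ M k := by
    rintro k _ ⟨x, hx, rfl⟩
    exact ⟨x, fun Δ hΔ => hx Δ (by omega), rfl⟩
  have hlast : M (m + 1) = ⊥ := by
    rw [eq_bot_iff]
    rintro _ ⟨x, hx, rfl⟩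
    rw [toChow_eq_zero_of_mem_J hU hx]
    exact Submodule.zero_mem _
  have hfirst : M 0 = ⊤ := by
    rw [eq_top_iff]
    intro x _
    obtain ⟨y, rfl⟩ := toChow_surjective n U x
    exact hM (fun Δ hΔ => absurd hΔ (by omega))
  -- the contribution of a stratum
  have hstr : ∀ (Γ : PTree n), Γ.nE ≤ m → ∃ s : Set (Dec Γ), s.Finite ∧
      ∀ P : Submodule (BaseRing n m) (ChowRing n U), M (Γ.nE + 1) ≤ P →
        (∀ t ∈ s, toChow n U (cls Γ t) ∈ P) → ∀ α, toChow n U (cls Γ α) ∈ P := by
    intro Γ hΓ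
    let _ : Algebra (BaseRing n m) (OpenRing Γ) := (rho Γ m).toRingHom.toAlgebra
    have hfin : Module.Finite (BaseRing n m) (OpenRing Γ) := rho_finite Γ m hΓ
    obtain ⟨S, hS⟩ := hfin.fg_top
    choose lift hlift using openMk_surjective Γ
    refine ⟨lift '' (S : Set (OpenRing Γ)), S.finite_toSet.image _, ?_⟩
    intro P hP hs α
    have himg : (openMk Γ).toRingHom.toAddMonoidHom '' (lift '' (S : Set (OpenRing Γ))) = S := by
      rw [Set.image_image]
      ext x
      constructor
      · rintro ⟨y, hy, rfl⟩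
        show openMk Γ (lift y) ∈ _
        rw [hlift]
        exact hy
      · intro hx
        exact ⟨x, hx, hlift x⟩
    have hlead : ∀ α, openMk Γ α = 0 → toChow n U (cls Γ α) ∈ P := by
      intro α hα
      have h1 := cls_mem_of_openIdeal Γ (openMk_eq_zero_iff.mp hα)
      obtain ⟨y, hy, z, hz, hyz⟩ := Submodule.mem_sup.mp h1
      rw [← hyz, map_add, toChow_relations hy, zero_add]
      exact hP (hM hz)
    exact mem_of_span (A := BaseRing n m) (R := ChowRing n U) (T := Dec Γ) (Q := OpenRing Γ)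
      (openMk Γ).toRingHom.toAddMonoidHom (openMk_surjective Γ)
      ((toChow n U).toRingHom.toAddMonoidHom.comp (clsHom Γ)) P hlead
      (by
        intro a α
        refine ⟨res Γ (BaseRing.incl n m a) * α, ?_, ?_⟩
        · show openMk Γ (res Γ (BaseRing.incl n m a) * α) = _
          rw [map_mul]
          rfl
        · show toChow n U (cls Γ (res Γ (BaseRing.incl n m a) * α)) -
            a • toChow n U (cls Γ α) ∈ P
          rw [hsmul, ← map_mul, ← map_sub]
          apply hP
          apply hM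
          rw [← neg_sub]
          exact (Ideal.neg_mem_iff _).mpr (mul_cls_sub_mem _ Γ α))
      (lift '' (S : Set (OpenRing Γ))) (by rw [himg]; exact hS) hs α
  -- every step of the filtration is finitely generated
  have hstep : ∀ k, k ≤ m → (M (k + 1)).FG → (M k).FG := by
    intro k hk hfg
    have hs' : ∀ Γ : TreeWith n k, ∃ s : Set (Dec Γ.1), s.Finite ∧
      ∀ P : Submodule (BaseRing n m) (ChowRing n U), M (k + 1) ≤ P →
        (∀ t ∈ s, toChow n U (cls Γ.1 t) ∈ P) → ∀ α, toChow n U (cls Γ.1 α) ∈ P := by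
      intro Γ
      have := hstr Γ.1 (by rw [Γ.2]; exact hk)
      rwa [Γ.2] at this
    choose s hsfin hs using hs'
    let G : Set (ChowRing n U) := ⋃ Γ : TreeWith n k, (fun t => toChow n U (cls Γ.1 t)) '' (s Γ)
    have hG : G.Finite := Set.finite_iUnion (fun Γ => (hsfin Γ).image _)
    have heq : M k = M (k + 1) ⊔ Submodule.span (BaseRing n m) G := by
      apply le_antisymm
      · rintro _ ⟨x, hx, rfl⟩
        have hc := compat_of_mem x.2
        have hex : ∀ Γ : TreeWith n k, ∃ α : Dec Γ.1, x.1 Γ.1 = α * ∏ e : Γ.1.Edge, normal e :=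
          fun Γ => hc.exists_quotient Γ.1 (fun Δ h => hx Δ (by rw [Γ.2] at h; exact h))
        choose α hα using hex
        have hpeel := fun Δ hΔ => hc.peel k hx α hα Δ hΔ
        have h1 : x - ∑ Γ : TreeWith n k, cls Γ.1 (((count k Γ.1 : ℚ))⁻¹ • α Γ) ∈ J n (k + 1) := by
          intro Δ hΔ
          have h2 := hpeel Δ hΔ
          have h3 : (x - ∑ Γ : TreeWith n k, cls Γ.1 (((count k Γ.1 : ℚ))⁻¹ • α Γ)).1 =
              x.1 - ∑ Γ : TreeWith n k, stratum Γ.1 (((count k Γ.1 : ℚ))⁻¹ • α Γ) := by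
            show valHom n (x - ∑ Γ : TreeWith n k, cls Γ.1 (((count k Γ.1 : ℚ))⁻¹ • α Γ)) = _
            rw [map_sub, map_sum]
            rfl
          rw [h3]
          exact h2
        have h4 : toChow n U x = toChow n U
            (x - ∑ Γ : TreeWith n k, cls Γ.1 (((count k Γ.1 : ℚ))⁻¹ • α Γ)) +
            ∑ Γ : TreeWith n k, toChow n U (cls Γ.1 (((count k Γ.1 : ℚ))⁻¹ • α Γ)) := by
          rw [← map_sum, ← map_add, sub_add_cancel]
        rw [h4]
        apply Submodule.add_mem
        · exact Submodule.mem_sup_left (hM h1)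
        · apply Submodule.sum_mem
          intro Γ _
          apply hs Γ _ le_sup_left
          intro t ht
          apply Submodule.mem_sup_right
          apply Submodule.subset_span
          exact Set.mem_iUnion.mpr ⟨Γ, t, ht, rfl⟩
      · apply sup_le (hMmono k)
        rw [Submodule.span_le]
        intro y hy
        obtain ⟨Γ, t, ht, rfl⟩ := Set.mem_iUnion.mp hy
        have := cls_mem_J Γ.1 t
        rw [Γ.2] at this
        exact hM this
    rw [heq]
    exact hfg.sup (Submodule.fg_span hG)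
  have hall : ∀ j, j ≤ m + 1 → (M (m + 1 - j)).FG := by
    intro j
    induction j with
    | zero =>
      intro _
      rw [Nat.sub_zero, hlast]
      exact Submodule.fg_bot
    | succ j ih =>
      intro hj
      have h1 := ih (by omega)
      have h2 : m + 1 - j = (m + 1 - (j + 1)) + 1 := by omega
      rw [h2] at h1
      exact hstep _ (by omega) h1
  have h0 := hall (m + 1) le_rfl
  rw [Nat.sub_self, hfirst] at h0
  exact ⟨h0⟩

theorem baseRing_finiteType (n m : ℕ) : Algebra.FiniteType ℚ (BaseRing n m) := by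
  have h1 : (baseAlg n m).FG := by
    obtain ⟨S, hS⟩ := (gens_finite n m).exists_finset_coe
    exact ⟨S, by rw [hS]; rfl⟩
  exact (Subalgebra.fg_iff_finiteType _).mp h1

/-- The Chow ring of an open union of strata of finite type is finitely generated. -/
theorem chow_finiteType (U : Set (PTree n)) (m : ℕ) (hU : ∀ Γ ∈ U, Γ.nE ≤ m) :
    Algebra.FiniteType ℚ (ChowRing n U) := by
  have h : Algebra.FiniteType ℚ (ChowRing n U) := by
    let _ : Algebra (BaseRing n m) (ChowRing n U) := (baseToChow n m U).toRingHom.toAlgebra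
    have htower : IsScalarTower ℚ (BaseRing n m) (ChowRing n U) := by
      apply IsScalarTower.of_algebraMap_eq
      intro c
      exact ((baseToChow n m U).commutes c).symm
    have h1 := baseRing_finiteType n m
    have h2 : Module.Finite (BaseRing n m) (ChowRing n U) := chow_finite U m hU
    exact Algebra.FiniteType.trans h1 inferInstance
  exact h

end Pool.Agent.PrestableChow
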